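import Mathlib

set_option autoImplicit false

namespace Pool.Agent.Helper909.SubRank

open MvPolynomial

/-- Linear substitution `x_i ↦ ∑ j, g i j * x_j`. -/
noncomputable def lin {A : Type*} [CommRing A] {ι κ : Type*} [Fintype κ] (g : Matrix ι κ A) :
    MvPolynomial ι A →ₐ[A] MvPolynomial κ A :=
  aeval (fun i => ∑ j, C (g i j) * X j)

/-- The affine cone over `Sub_r(S^k V)`, `V = ⟨x_1,…,x_n⟩` over the complex numbers: forms of degree
`k` which are polynomials in `r` linear forms `∑ i, L j i * x_i` (`j = 1,…,r`). -/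
def Sub (n k r : ℕ) : Set (MvPolynomial (Fin n) ℂ) :=
  {f | ∃ (h : MvPolynomial (Fin r) ℂ) (L : Matrix (Fin r) (Fin n) ℂ),
    h.IsHomogeneous k ∧ f = lin L h}

/-- Sums of `s` elements of the cone over `Sub_r(S^k V)`. -/
def Sums (n k r s : ℕ) : Set (MvPolynomial (Fin n) ℂ) :=
  {f | ∃ g : Fin s → MvPolynomial (Fin n) ℂ, (∀ i, g i ∈ Sub n k r) ∧ f = ∑ i, g i}

/-- Exponent vectors of degree `k` in `n` variables (the monomial basis of `S^k V`). -/
abbrev Mon (n k : ℕ) := {m : Fin n →₀ ℕ // m.degree = k}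

/-- `σ_s(Sub_r(S^k V))` is the whole space: the sums of `s` elements are Zariski dense in `S^k V`,
that is, the only polynomial function on `S^k V` vanishing on all these sums is `0`. -/
def Fills (n k r s : ℕ) : Prop :=
  ∀ F : MvPolynomial (Mon n k) ℂ,
    (∀ f ∈ Sums n k r s, eval (fun m : Mon n k => coeff m.1 f) F = 0) → F = 0

/-- The generic `Sub_r(S^k V)`-rank, `dim V = n`. -/
noncomputable def genericRank (n k r : ℕ) : ℕ := sInf {s | Fills n k r s}

/-- `m` involves a variable of each of the blocks `0,…,s-1`; the block `i` consists of the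
variables `x` with `i*c ≤ x < (i+1)*c`. -/
def Hits {n : ℕ} (s c : ℕ) (m : Fin n →₀ ℕ) : Prop :=
  ∀ i < s, ∃ x : Fin n, x.val / c = i ∧ m x ≠ 0

end Pool.Agent.Helper909.SubRank
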