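import Pool.Agent.Helper909.SubRank.Lin
set_option autoImplicit false
namespace Pool.Agent.Helper909.SubRank
open MvPolynomial

-- job 32033
theorem mem_sub_of_card {n k r : ℕ} {ρ : Type} [Fintype ρ] (hρ : Fintype.card ρ ≤ r)
    (h : MvPolynomial ρ ℂ) (hh : h.IsHomogeneous k) (L : Matrix ρ (Fin n) ℂ) :
    lin L h ∈ Sub n k r := by
  classical
  have hcard : Fintype.card ρ ≤ Fintype.card (Fin r) := by simpa using hρ
  obtain ⟨e⟩ := Function.Embedding.nonempty_of_card_le hcard
  refine ⟨rename e h, Function.extend e L 0, hh.rename_isHomogeneous, ?_⟩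
  unfold lin
  rw [aeval_rename]
  congr 2
  funext i
  simp only [Function.comp]
  have : (Function.extend e L 0 : Fin r → Fin n → ℂ) (e i) = L i := e.injective.extend_apply L 0 i
  rw [show (Function.extend e L 0 : Matrix (Fin r) (Fin n) ℂ) (e i) = L i from this]

-- job 32030
instance monFinite (n k : ℕ) : Finite (Mon n k) := by
  have hle : ∀ (m : Mon n k) (i : Fin n), m.1 i < k + 1 := by
    intro m i
    have h1 : m.1 i ≤ m.1.degree := Finsupp.le_degree i m.1
    rw [m.2] at h1
    omega
  let φ : Mon n k → (Fin n → Fin (k + 1)) := fun m i => ⟨m.1 i, hle m i⟩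
  have hφ : Function.Injective φ := by
    intro a b hab
    apply Subtype.ext
    ext i
    have := congrFun hab i
    exact congrArg Fin.val this
  exact Finite.of_injective φ hφ

/-- (a) more polynomials than variables: algebraic dependence -/
theorem algDep {ι κ : Type} [Finite ι] [Finite κ] (h : Nat.card ι < Nat.card κ)
    (q : κ → MvPolynomial ι ℂ) : ∃ F : MvPolynomial κ ℂ, F ≠ 0 ∧ aeval q F = 0 := by
  by_contra hcon
  push Not at hcon
  have hind : AlgebraicIndependent ℂ q := by
    unfold AlgebraicIndependent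
    rw [injective_iff_map_eq_zero]
    intro F hF
    by_contra hne
    exact hcon F hne hF
  have h1 := hind.lift_cardinalMk_le_trdeg
  rw [MvPolynomial.trdeg_of_isDomain] at h1
  simp only [Cardinal.lift_id, Cardinal.lift_uzero] at h1
  haveI := Fintype.ofFinite ι
  haveI := Fintype.ofFinite κ
  rw [Cardinal.mk_fintype, Cardinal.mk_fintype] at h1
  rw [Nat.card_eq_fintype_card, Nat.card_eq_fintype_card] at h
  have h2 : Fintype.card κ ≤ Fintype.card ι := by exact_mod_cast h1
  omega

-- job 32031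
private theorem card_params_lt (n m : ℕ) (h : m ≤ n) : Fintype.card {y : Fin n // y.val < m} = m := by
  conv_rhs => rw [← Fintype.card_fin m]
  exact Fintype.card_congr ⟨fun y => ⟨y.1.1, y.2⟩, fun z => ⟨⟨z.1, lt_of_lt_of_le z.2 h⟩, z.2⟩,
    fun y => rfl, fun z => rfl⟩

private theorem card_params_blk (n c i : ℕ) (hc : 0 < c) (h : (i + 1) * c ≤ n) :
    Fintype.card {x : Fin n // x.val / c = i} = c := by
  conv_rhs => rw [← Fintype.card_fin c]
  refine Fintype.card_congr ⟨fun y => ⟨y.1.1 % c, Nat.mod_lt _ hc⟩,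
    fun z => ⟨⟨i * c + z.1, ?_⟩, ?_⟩, ?_, ?_⟩
  · have := z.2
    calc i * c + z.1 < i * c + c := by omega
      _ = (i + 1) * c := by ring
      _ ≤ n := h
  · show (i * c + z.1) / c = i
    rw [mul_comm, Nat.mul_add_div hc, Nat.div_eq_of_lt z.2]; rfl
  · rintro ⟨y, hy⟩
    ext
    show i * c + y.1 % c = y.1
    rw [← hy, mul_comm]
    exact Nat.div_add_mod _ _
  · intro z
    ext
    show (i * c + z.1) % c = z.1
    rw [Nat.mul_add_mod', Nat.mod_eq_of_lt z.2]

theorem card_params (n c s : ℕ) (hc : 0 < c) (hn : s * c ≤ n) :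
    Nat.card {p : Fin n × Fin n // p.2.val / c < s ∧ p.1.val / c ≠ p.2.val / c} = s * c * (n - c) := by
  classical
  have e : {p : Fin n × Fin n // p.2.val / c < s ∧ p.1.val / c ≠ p.2.val / c} ≃
      (Σ y : {y : Fin n // y.val / c < s}, {x : Fin n // ¬ x.val / c = y.1.val / c}) :=
    ⟨fun p => ⟨⟨p.1.2, p.2.1⟩, ⟨p.1.1, p.2.2⟩⟩, fun q => ⟨(q.2.1, q.1.1), ⟨q.1.2, q.2.2⟩⟩,
      fun p => rfl, fun q => rfl⟩
  rw [Nat.card_congr e, Nat.card_eq_fintype_card, Fintype.card_sigma]
  have h1 : ∀ y : {y : Fin n // y.val / c < s},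
      Fintype.card {x : Fin n // ¬ x.val / c = y.1.val / c} = n - c := by
    intro y
    rw [Fintype.card_subtype_compl, Fintype.card_fin, card_params_blk n c _ hc]
    exact (Nat.mul_le_mul_right c y.2).trans hn
  rw [Finset.sum_congr rfl (fun y _ => h1 y), Finset.sum_const, Finset.card_univ, smul_eq_mul]
  congr 1
  have e2 : {y : Fin n // y.val / c < s} ≃ {y : Fin n // y.val < s * c} :=
    Equiv.subtypeEquivRight (fun y => Nat.div_lt_iff_lt_mul hc)
  rw [Fintype.card_congr e2, card_params_lt _ _ hn]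

-- job 32032
/-- UB1 -/
theorem mem_sums_of_misses (n k c s : ℕ) (hc : 0 < c) (hn : s * c ≤ n)
    (f : MvPolynomial (Fin n) ℂ) (hf : f.IsHomogeneous k)
    (h : ∀ m, Hits s c m → coeff m f = 0) : f ∈ Sums n k (n - c) s := by
  classical
  -- index of a missed block
  have hex : ∀ m ∈ f.support, ∃ i, i < s ∧ ∀ x : Fin n, x.val / c = i → m x = 0 := by
    intro m hm
    have hm' : coeff m f ≠ 0 := by simpa [mem_support_iff] using hm
    have hnh : ¬ Hits s c m := fun hh => hm' (h m hh)
    unfold Hits at hnh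
    push Not at hnh
    obtain ⟨i, hi, hx⟩ := hnh
    exact ⟨i, hi, hx⟩
  choose! idx hidx using hex
  -- the pieces
  let g : Fin s → MvPolynomial (Fin n) ℂ := fun i =>
    ∑ m ∈ f.support, if idx m = i.val then monomial m (coeff m f) else 0
  have hcoeff : ∀ i m, coeff m (g i) ≠ 0 → coeff m f ≠ 0 ∧ idx m = i.val := by
    intro i m hne
    have h1 : coeff m (g i) = ∑ m' ∈ f.support, coeff m (if idx m' = i.val then monomial m' (coeff m' f) else 0) := by
      simp only [g, coeff_sum]
    rw [h1] at hne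
    obtain ⟨m', hm', hne'⟩ := Finset.exists_ne_zero_of_sum_ne_zero hne
    split_ifs at hne' with hi
    · rw [coeff_monomial] at hne'
      split_ifs at hne' with he
      · subst he
        exact ⟨hne', hi⟩
      · exact absurd rfl hne'
    · simp at hne'
  refine ⟨g, ?_, ?_⟩
  · intro i
    have hi := i.2
    have hic : (i.val + 1) * c ≤ n := le_trans (Nat.mul_le_mul_right c hi) hn
    have hic' : i.val * c + c ≤ n := by
      have : (i.val + 1) * c = i.val * c + c := by ring
      omega
    -- the embedding of the complement of the block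
    let e : Fin (n - c) → Fin n := fun j =>
      if j.val < i.val * c then ⟨j.val, by have := j.2; omega⟩ else ⟨j.val + c, by have := j.2; omega⟩
    have heinj : Function.Injective e := by
      intro a b hab
      simp only [e] at hab
      have ha := a.2
      have hb := b.2
      split_ifs at hab with h1 h2 h2
      · simp only [Fin.mk.injEq] at hab; exact Fin.ext hab
      · simp only [Fin.mk.injEq] at hab; omega
      · simp only [Fin.mk.injEq] at hab; omega
      · simp only [Fin.mk.injEq] at hab; exact Fin.ext (by omega)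
    have herange : ∀ x : Fin n, x.val / c ≠ i.val → x ∈ Set.range e := by
      intro x hx
      by_cases h1 : x.val < i.val * c
      · refine ⟨⟨x.val, by omega⟩, ?_⟩
        simp only [e]
        rw [if_pos h1]
      · have h2 : i.val * c + c ≤ x.val := by
          by_contra h3
          push Not at h3
          apply hx
          apply Nat.div_eq_of_lt_le
          · omega
          · have : (i.val + 1) * c = i.val * c + c := by ring
            omega
        refine ⟨⟨x.val - c, by have := x.2; omega⟩, ?_⟩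
        simp only [e]
        rw [if_neg (by omega)]
        apply Fin.ext
        simp only
        omega
    have hvars : (↑(g i).vars : Set (Fin n)) ⊆ Set.range e := by
      intro x hx
      have hx' : x ∈ (g i).vars := hx
      rw [mem_vars_iff_mem_support] at hx'
      obtain ⟨d, hd, hxd⟩ := hx'
      have hd' : coeff d (g i) ≠ 0 := by simpa [mem_support_iff] using hd
      obtain ⟨hf1, hf2⟩ := hcoeff i d hd'
      apply herange
      intro hc'
      have h3 := (hidx d (by simpa [mem_support_iff] using hf1)).2 x (by rw [hf2]; exact hc')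
      exact (Finsupp.mem_support_iff.mp hxd) h3
    obtain ⟨q, hq⟩ := exists_rename_eq_of_vars_subset_range (g i) e heinj hvars
    refine ⟨q, fun j x => if x = e j then 1 else 0, ?_, ?_⟩
    · rw [← IsHomogeneous.rename_isHomogeneous_iff heinj, hq]
      intro d hd
      exact hf (hcoeff i d hd).1
    · rw [← hq]
      have : (lin (fun j x => if x = e j then (1:ℂ) else 0) : MvPolynomial (Fin (n - c)) ℂ →ₐ[ℂ] MvPolynomial (Fin n) ℂ) = rename e := by
        apply algHom_ext
        intro j
        unfold lin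
        rw [aeval_X, rename_X]
        rw [Finset.sum_eq_single (e j)]
        · simp
        · intro x _ hx
          simp [hx]
        · intro hh
          exact absurd (Finset.mem_univ _) hh
      rw [this]
  · have h1 : ∑ i, g i = ∑ m ∈ f.support, ∑ i : Fin s, (if idx m = i.val then monomial m (coeff m f) else 0) := by
      simp only [g]
      rw [Finset.sum_comm]
    rw [h1]
    conv_lhs => rw [f.as_sum]
    apply Finset.sum_congr rfl
    intro m hm
    have h2 := (hidx m hm).1
    rw [Finset.sum_eq_single (⟨idx m, h2⟩ : Fin s)]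
    · simp
    · intro b _ hb
      rw [if_neg]
      intro h3
      apply hb
      apply Fin.ext
      exact h3.symm
    · intro hh
      exact absurd (Finset.mem_univ _) hh

-- job 32029
theorem ineq2_pow (c : ℕ) (hc : 2 ≤ c) (t : ℕ) : 4 * (t + 3) ≤ 3 * c ^ (t + 2) := by
  have h1 : 4 * (t + 3) ≤ 3 * 2 ^ (t + 2) := by
    induction t with
    | zero => norm_num
    | succ t ih =>
      have : 2 ^ (t + 1 + 2) = 2 * 2 ^ (t + 2) := by ring
      omega
  have h2 : 2 ^ (t + 2) ≤ c ^ (t + 2) := Nat.pow_le_pow_left hc _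
  omega

theorem ineq2_key (m c s u : ℤ) (hc : 2 ≤ c) (hs : 2 ≤ s) (hm : c * u + c ≤ m)
    (h : (s = 2 ∧ u = c) ∨ (3 ≤ s ∧ 4 * s ≤ 3 * u)) :
    2 * s * (m + (s - 1) * c) < 2 * u * m + s * u * (c + 1) := by
  rcases h with ⟨h1, h2⟩ | ⟨h1, h2⟩
  · subst h1 h2
    nlinarith [mul_nonneg (by linarith : (0 : ℤ) ≤ u - 2) (by nlinarith : (0 : ℤ) ≤ m)]
  · have hu : s ≤ u := by linarith
    have k1 : 0 ≤ (u - s) * (m - c * u - c) := mul_nonneg (by linarith) (by linarith)
    have k2 : 0 ≤ c * ((3 * u - 4 * s) * (6 * u + 5 * s)) :=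
      mul_nonneg (by linarith) (mul_nonneg (by linarith) (by linarith))
    have k3 : 0 < c * (s * s) := by positivity
    have k4 : 0 ≤ (u - s) * c := mul_nonneg (by linarith) (by linarith)
    have k5 : 0 ≤ s * u := mul_nonneg (by linarith) (by linarith)
    have k6 : 0 ≤ s * c := mul_nonneg (by linarith) (by linarith)
    nlinarith

theorem ineq2 (n c s : ℕ) (hc : 2 ≤ c) (hs : 2 ≤ s) (hn : c ^ s + (s + 1) * c ≤ n) :
    s * c * (n - c) < c ^ s * (n - s * c) + s * (c ^ (s - 1) * (c * (c + 1) / 2)) := by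
  obtain ⟨t, rfl⟩ : ∃ t, s = t + 2 := ⟨s - 2, by omega⟩
  obtain ⟨m, rfl⟩ : ∃ m, n = m + (t + 2) * c := ⟨n - (t + 2) * c, by
    have : (t + 2) * c ≤ (t + 2 + 1) * c := Nat.mul_le_mul_right _ (by omega)
    omega⟩
  obtain ⟨q, hq⟩ : ∃ q, c * (c + 1) = 2 * q := by
    obtain ⟨q, hq⟩ := Nat.even_mul_succ_self c
    exact ⟨q, by rw [two_mul]; exact hq⟩
  obtain ⟨u, hu⟩ : ∃ u, u = c ^ (t + 1) := ⟨_, rfl⟩
  have e1 : c ^ (t + 2) = c * u := by rw [hu]; ring
  have e2 : t + 2 - 1 = t + 1 := by omega
  have e3 : c * (c + 1) / 2 = q := by omega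
  have e4 : m + (t + 2) * c - (t + 2) * c = m := by omega
  have e5 : m + (t + 2) * c - c = m + (t + 1) * c := by
    have : (t + 2) * c = (t + 1) * c + c := by ring
    omega
  rw [e2, e3, e4, e5, ← hu, e1]
  have hm : c * u + c ≤ m := by
    rw [e1] at hn
    have : (t + 2 + 1) * c = (t + 2) * c + c := by ring
    omega
  have key := ineq2_key m c (t + 2) u (by exact_mod_cast hc) (by omega)
    (by exact_mod_cast hm) (by
      rcases Nat.eq_zero_or_pos t with h0 | h0
      · left
        subst h0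
        refine ⟨by norm_num, ?_⟩
        rw [hu]
        norm_num
      · right
        obtain ⟨r, rfl⟩ : ∃ r, t = r + 1 := ⟨t - 1, by omega⟩
        refine ⟨by push_cast; omega, ?_⟩
        have h1 := ineq2_pow c hc r
        rw [hu]
        have h2 : r + 1 + 1 = r + 2 := rfl
        rw [h2]
        have h3 : (4 : ℤ) * (r + 3) ≤ 3 * ((c ^ (r + 2) : ℕ) : ℤ) := by exact_mod_cast h1
        push_cast at h3 ⊢
        linarith)
  have hcpos : (0 : ℤ) < c := by exact_mod_cast (by omega : 0 < c)
  have hq' : (c : ℤ) * (c + 1) = 2 * q := by exact_mod_cast hq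
  have k := mul_lt_mul_of_pos_left key hcpos
  have goal' : ((t : ℤ) + 2) * c * (m + (t + 1) * c) < c * u * m + (t + 2) * (u * q) := by
    have k2 : 2 * (((t : ℤ) + 2) * c * (m + (t + 1) * c)) <
        2 * (c * u * m + (t + 2) * (u * q)) := by
      calc 2 * (((t : ℤ) + 2) * c * (m + (t + 1) * c)) =
          c * (2 * (t + 2) * (m + ((t + 2) - 1) * c)) := by ring
        _ < c * (2 * u * m + (t + 2) * u * (c + 1)) := k
        _ = 2 * (c * u * m) + (t + 2) * u * (c * (c + 1)) := by ring
        _ = 2 * (c * u * m + (t + 2) * (u * q)) := by rw [hq']; ring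
    linarith
  exact_mod_cast goal'

-- job 32028
theorem c1_bx_lt (n c s : ℕ) (hn : s * c ≤ n) (φ : Fin s → Fin c) (j : Fin s) :
    (j : ℕ) * c + (φ j : ℕ) < n := by
  have h1 : (φ j : ℕ) < c := (φ j).2
  have h2 : (j : ℕ) + 1 ≤ s := j.2
  have h3 : ((j : ℕ) + 1) * c ≤ s * c := Nat.mul_le_mul_right c h2
  rw [add_mul, one_mul] at h3
  omega

def c1_bx (n c s : ℕ) (hn : s * c ≤ n) (φ : Fin s → Fin c) (j : Fin s) : Fin n :=
  ⟨(j : ℕ) * c + (φ j : ℕ), c1_bx_lt n c s hn φ j⟩

theorem c1_bx_div (n c s : ℕ) (hc : 0 < c) (hn : s * c ≤ n) (φ : Fin s → Fin c) (j : Fin s) :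
    (c1_bx n c s hn φ j).val / c = j := by
  unfold c1_bx
  simp only
  rw [add_comm, Nat.add_mul_div_right _ _ hc, Nat.div_eq_of_lt (φ j).2, zero_add]

noncomputable def c1_mmx (n c s : ℕ) (hn : s * c ≤ n) (φ : Fin s → Fin c) : Fin n →₀ ℕ :=
  ∑ j, Finsupp.single (c1_bx n c s hn φ j) 1

theorem c1_mmx_ne (n c s : ℕ) (hn : s * c ≤ n) (φ : Fin s → Fin c) (x : Fin n) :
    c1_mmx n c s hn φ x ≠ 0 ↔ ∃ j, c1_bx n c s hn φ j = x := by
  classical
  unfold c1_mmx
  rw [Finsupp.finsetSum_apply]
  constructor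
  · intro h
    by_contra hcon
    push Not at hcon
    apply h
    apply Finset.sum_eq_zero
    intro j _
    rw [Finsupp.single_apply, if_neg (hcon j)]
  · rintro ⟨j, hj⟩ h
    rw [Finset.sum_eq_zero_iff] at h
    have := h j (Finset.mem_univ j)
    rw [Finsupp.single_apply, if_pos hj] at this
    omega

theorem c1_mmx_degree (n c s : ℕ) (hn : s * c ≤ n) (φ : Fin s → Fin c) :
    (c1_mmx n c s hn φ).degree = s := by
  unfold c1_mmx
  rw [map_sum]
  simp

theorem c1_mmx_hits (n c s : ℕ) (hc : 0 < c) (hn : s * c ≤ n) (φ : Fin s → Fin c) :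
    Hits s c (c1_mmx n c s hn φ) := by
  intro i hi
  refine ⟨c1_bx n c s hn φ ⟨i, hi⟩, ?_, ?_⟩
  · rw [c1_bx_div n c s hc hn φ ⟨i, hi⟩]
  · rw [c1_mmx_ne]
    exact ⟨_, rfl⟩

theorem c1_mmx_inj (n c s : ℕ) (hc : 0 < c) (hn : s * c ≤ n) (φ ψ : Fin s → Fin c)
    (h : c1_mmx n c s hn φ = c1_mmx n c s hn ψ) : φ = ψ := by
  funext i
  have h1 : c1_mmx n c s hn φ (c1_bx n c s hn φ i) ≠ 0 := (c1_mmx_ne n c s hn φ _).mpr ⟨i, rfl⟩
  rw [h, c1_mmx_ne] at h1
  obtain ⟨j, hj⟩ := h1
  have h2 := congrArg (fun x : Fin n => x.val / c) hj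
  simp only [c1_bx_div n c s hc hn] at h2
  have h3 : j = i := Fin.ext h2
  subst h3
  have h4 := congrArg Fin.val hj
  unfold c1_bx at h4
  simp only at h4
  apply Fin.ext
  omega

theorem c1_finite_Mon (n k : ℕ) : Finite (Mon n k) := by
  have hle : ∀ (m : Mon n k) (i : Fin n), m.1 i < k + 1 := by
    intro m i
    have h1 : m.1 i ≤ m.1.degree := Finsupp.le_degree i m.1
    have := m.2
    omega
  apply Finite.of_injective (fun (m : Mon n k) (i : Fin n) => (⟨m.1 i, hle m i⟩ : Fin (k + 1)))
  intro m m' h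
  apply Subtype.ext
  ext i
  have := congrFun h i
  exact congrArg Fin.val this

/-- counting -/
theorem count1 (n c s : ℕ) (hc : 0 < c) (hn : s * c ≤ n) :
    c ^ s ≤ Nat.card {m : Mon n s // Hits s c m.1} := by
  haveI := c1_finite_Mon n s
  have h1 : Nat.card (Fin s → Fin c) = c ^ s := by
    simp
  rw [← h1]
  apply Nat.card_le_card_of_injective
    (fun φ : Fin s → Fin c =>
      (⟨⟨c1_mmx n c s hn φ, c1_mmx_degree n c s hn φ⟩, c1_mmx_hits n c s hc hn φ⟩ :
        {m : Mon n s // Hits s c m.1}))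
  intro φ ψ h
  apply c1_mmx_inj n c s hc hn φ ψ
  have := congrArg (fun z => z.1.1) h
  exact this

-- job 32027
/-- the index type -/
abbrev count2X (n c s : ℕ) : Type := ((Fin s → Fin c) × Fin (n - s * c)) ⊕
  (Σ j : Fin s, (Σ b : Fin c, Fin (b.val + 1)) × ({i : Fin s // i ≠ j} → Fin c))

/-- the function -/
def count2phi {n c s : ℕ} : count2X n c s → (Fin s → Fin c)
  | .inl (φ, _) => φ
  | .inr ⟨j, ⟨b, x⟩, ψ⟩ => fun i => if h : i = j then
      ⟨x.val, lt_of_lt_of_le x.isLt (Nat.succ_le_of_lt b.isLt)⟩ else ψ ⟨i, h⟩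

/-- the additional variable -/
def count2l {n c s : ℕ} : count2X n c s → ℕ
  | .inl (_, l) => s * c + l.val
  | .inr ⟨j, ⟨b, _⟩, _⟩ => j.val * c + b.val

theorem count2_dm (c j b : ℕ) (hb : b < c) : (j * c + b) / c = j ∧ (j * c + b) % c = b := by
  have hc : 0 < c := by omega
  constructor
  · rw [Nat.add_comm, Nat.add_mul_div_right _ _ hc, Nat.div_eq_of_lt hb, Nat.zero_add]
  · rw [Nat.add_comm, Nat.add_mul_mod_self_right, Nat.mod_eq_of_lt hb]

theorem count2_block (c s j b : ℕ) (hj : j < s) (hb : b < c) : j * c + b < s * c := by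
  calc j * c + b < j * c + c := by omega
    _ = (j + 1) * c := by ring
    _ ≤ s * c := Nat.mul_le_mul_right c hj

theorem count2_l_lt {n c s : ℕ} (hn : s * c ≤ n) (u : count2X n c s) : count2l u < n := by
  rcases u with ⟨φ, l⟩ | ⟨j, ⟨b, x⟩, ψ⟩
  · show s * c + l.val < n
    have := l.isLt
    omega
  · show j.val * c + b.val < n
    exact lt_of_lt_of_le (count2_block c s j.val b.val j.isLt b.isLt) hn

theorem count2_P {n c s : ℕ} (hc : 0 < c) (u : count2X n c s) (i : Fin s)
    (hi : count2l u / c = i.val) : (count2phi u i).val ≤ count2l u % c := by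
  rcases u with ⟨φ, l⟩ | ⟨j, ⟨b, x⟩, ψ⟩
  · exfalso
    have h1 : s ≤ (s * c + l.val) / c := by
      rw [Nat.le_div_iff_mul_le hc]
      omega
    have h2 : (s * c + l.val) / c = i.val := hi
    have := i.isLt
    omega
  · have h1 := count2_dm c j.val b.val b.isLt
    have h2 : (j.val * c + b.val) / c = i.val := hi
    have h3 : i = j := Fin.ext (by omega)
    subst h3
    show (if h : i = i then (⟨x.val, lt_of_lt_of_le x.isLt (Nat.succ_le_of_lt b.isLt)⟩ : Fin c)
      else ψ ⟨i, h⟩).val ≤ (i.val * c + b.val) % c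
    rw [dif_pos rfl, h1.2]
    exact Nat.le_of_lt_succ x.isLt

theorem count2_pair_inj {n c s : ℕ} (hc : 0 < c) (u v : count2X n c s)
    (h1 : count2phi u = count2phi v) (h2 : count2l u = count2l v) : u = v := by
  rcases u with ⟨φ, l⟩ | ⟨j, ⟨b, x⟩, ψ⟩ <;> rcases v with ⟨φ', l'⟩ | ⟨j', ⟨b', x'⟩, ψ'⟩
  · have e1 : φ = φ' := h1
    have e2 : s * c + l.val = s * c + l'.val := h2
    have e3 : l = l' := Fin.ext (by omega)
    rw [e1, e3]
  · exfalso
    have e2 : s * c + l.val = j'.val * c + b'.val := h2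
    have := count2_block c s j'.val b'.val j'.isLt b'.isLt
    omega
  · exfalso
    have e2 : j.val * c + b.val = s * c + l'.val := h2
    have := count2_block c s j.val b.val j.isLt b.isLt
    omega
  · have e2 : j.val * c + b.val = j'.val * c + b'.val := h2
    have d1 := count2_dm c j.val b.val b.isLt
    have d2 := count2_dm c j'.val b'.val b'.isLt
    rw [e2] at d1
    have ej : j = j' := Fin.ext (by omega)
    have eb : b = b' := Fin.ext (by omega)
    subst ej
    subst eb
    have ex : x = x' := by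
      have h3 := congrFun h1 j
      have h4 : (if h : j = j then (⟨x.val, lt_of_lt_of_le x.isLt (Nat.succ_le_of_lt b.isLt)⟩ : Fin c)
        else ψ ⟨j, h⟩) = (if h : j = j then
          (⟨x'.val, lt_of_lt_of_le x'.isLt (Nat.succ_le_of_lt b.isLt)⟩ : Fin c)
        else ψ' ⟨j, h⟩) := h3
      rw [dif_pos rfl, dif_pos rfl] at h4
      exact Fin.ext (Fin.mk.inj h4)
    have eψ : ψ = ψ' := by
      funext i
      have h3 := congrFun h1 i.1
      have h4 : (if h : i.1 = j then (⟨x.val, lt_of_lt_of_le x.isLt (Nat.succ_le_of_lt b.isLt)⟩ : Fin c)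
        else ψ ⟨i.1, h⟩) = (if h : i.1 = j then
          (⟨x'.val, lt_of_lt_of_le x'.isLt (Nat.succ_le_of_lt b.isLt)⟩ : Fin c)
        else ψ' ⟨i.1, h⟩) := h3
      rw [dif_neg i.2, dif_neg i.2] at h4
      exact h4
    rw [ex, eψ]

/-- position of the variable of block `j` -/
def count2pos {n c s : ℕ} (hn : s * c ≤ n) (φ : Fin s → Fin c) (j : Fin s) : Fin n :=
  ⟨j.val * c + (φ j).val, lt_of_lt_of_le (count2_block c s _ _ j.isLt (φ j).isLt) hn⟩

/-- the monomial -/
noncomputable def count2m {n c s : ℕ} (hn : s * c ≤ n) (φ : Fin s → Fin c) (l : Fin n) :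
    Fin n →₀ ℕ :=
  ∑ j, Finsupp.single (count2pos hn φ j) 1 + Finsupp.single l 1

theorem count2_eval {n c s : ℕ} (hn : s * c ≤ n) (φ : Fin s → Fin c) (l : Fin n) (i : Fin s)
    (b : Fin c) (hx : i.val * c + b.val < n) :
    count2m hn φ l ⟨i.val * c + b.val, hx⟩ =
      (if φ i = b then 1 else 0) + (if l.val = i.val * c + b.val then 1 else 0) := by
  unfold count2m
  rw [Finsupp.add_apply, Finsupp.finsetSum_apply]
  congr 1
  · rw [Finset.sum_eq_single i]
    · rw [Finsupp.single_apply]
      refine if_congr ?_ rfl rfl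
      unfold count2pos
      constructor
      · intro h
        have := congrArg Fin.val h
        exact Fin.ext (by simpa using this)
      · rintro rfl
        rfl
    · intro j _ hj
      rw [Finsupp.single_apply, if_neg]
      intro h
      have h1 : j.val * c + (φ j).val = i.val * c + b.val := congrArg Fin.val h
      have d1 := count2_dm c j.val (φ j).val (φ j).isLt
      have d2 := count2_dm c i.val b.val b.isLt
      rw [h1] at d1
      exact hj (Fin.ext (by omega))
    · intro h
      exact absurd (Finset.mem_univ i) h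
  · rw [Finsupp.single_apply]
    refine if_congr ?_ rfl rfl
    constructor
    · intro h
      exact congrArg Fin.val h
    · intro h
      exact Fin.ext h

theorem count2_le {n c s : ℕ} (hn : s * c ≤ n) (φ φ' : Fin s → Fin c) (l l' : Fin n)
    (hP' : ∀ i : Fin s, l'.val / c = i.val → (φ' i).val ≤ l'.val % c)
    (h : count2m hn φ l = count2m hn φ' l') (i : Fin s) : (φ' i).val ≤ (φ i).val := by
  by_contra hcon
  push Not at hcon
  have hx : i.val * c + (φ i).val < n :=
    lt_of_lt_of_le (count2_block c s _ _ i.isLt (φ i).isLt) hn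
  have e1 := count2_eval hn φ l i (φ i) hx
  have e2 := count2_eval hn φ' l' i (φ i) hx
  rw [h, e2, if_pos rfl] at e1
  have hne : φ' i ≠ φ i := fun h3 => by
    rw [h3] at hcon
    exact lt_irrefl _ hcon
  rw [if_neg hne] at e1
  by_cases hl : l'.val = i.val * c + (φ i).val
  · have d1 := count2_dm c i.val (φ i).val (φ i).isLt
    rw [← hl] at d1
    have := hP' i d1.1
    omega
  · rw [if_neg hl] at e1
    omega

theorem count2_card (n c s : ℕ) : Nat.card (count2X n c s) =
    c ^ s * (n - s * c) + s * (c ^ (s - 1) * (c * (c + 1) / 2)) := by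
  have hT : ∑ b : Fin c, (b.val + 1) = c * (c + 1) / 2 := by
    rw [Fin.sum_univ_eq_sum_range (fun i => i + 1) c]
    have h2 : (∑ i ∈ Finset.range c, (i + 1)) * 2 = c * (c + 1) := by
      induction c with
      | zero => simp
      | succ k ih =>
        rw [Finset.sum_range_succ, add_mul, ih]
        ring
    rw [← h2, Nat.mul_div_cancel _ (by norm_num)]
  have hne : ∀ j : Fin s, Fintype.card {i : Fin s // i ≠ j} = s - 1 := by
    intro j
    simp
  rw [Nat.card_eq_fintype_card, Fintype.card_sum, Fintype.card_prod, Fintype.card_fun,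
    Fintype.card_sigma]
  simp only [Fintype.card_prod, Fintype.card_sigma, Fintype.card_fin, Fintype.card_fun, hne, hT,
    Finset.sum_const, Finset.card_univ, smul_eq_mul]
  ring

theorem count2_finite (n k : ℕ) : Finite (Mon n k) := by
  have hle : ∀ (m : Mon n k) (i : Fin n), m.1 i < k + 1 := by
    intro m i
    have h1 := Finsupp.le_degree i m.1
    rw [m.2] at h1
    omega
  refine Finite.of_injective (fun m : Mon n k => fun i : Fin n => (⟨m.1 i, hle m i⟩ : Fin (k + 1))) ?_
  intro m m' h
  apply Subtype.ext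
  apply Finsupp.ext
  intro i
  exact congrArg Fin.val (congrFun h i)

theorem count2 (n c s : ℕ) (hc : 0 < c) (hs : 0 < s) (hn : s * c ≤ n) :
    c ^ s * (n - s * c) + s * (c ^ (s - 1) * (c * (c + 1) / 2)) ≤
      Nat.card {m : Mon n (s + 1) // Hits s c m.1} := by
  haveI := count2_finite n (s + 1)
  rw [← count2_card n c s]
  have hdeg : ∀ u : count2X n c s,
      (count2m hn (count2phi u) ⟨count2l u, count2_l_lt hn u⟩).degree = s + 1 := by
    intro u
    unfold count2m
    rw [map_add, map_sum]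
    simp [Finsupp.degree_single]
  have hhit : ∀ u : count2X n c s,
      Hits s c (count2m hn (count2phi u) ⟨count2l u, count2_l_lt hn u⟩) := by
    intro u i hi
    refine ⟨count2pos hn (count2phi u) ⟨i, hi⟩, ?_, ?_⟩
    · exact (count2_dm c i _ (count2phi u ⟨i, hi⟩).isLt).1
    · have e1 := count2_eval hn (count2phi u) ⟨count2l u, count2_l_lt hn u⟩ ⟨i, hi⟩
        (count2phi u ⟨i, hi⟩) (count2pos hn (count2phi u) ⟨i, hi⟩).isLt
      rw [if_pos rfl] at e1
      intro h0
      have h1 : count2m hn (count2phi u) ⟨count2l u, count2_l_lt hn u⟩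
        (count2pos hn (count2phi u) ⟨i, hi⟩) = 1 + _ := e1
      rw [h0] at h1
      omega
  refine Nat.card_le_card_of_injective
    (fun u : count2X n c s => (⟨⟨count2m hn (count2phi u) ⟨count2l u, count2_l_lt hn u⟩, hdeg u⟩,
      hhit u⟩ : {m : Mon n (s + 1) // Hits s c m.1})) ?_
  intro u v huv
  have h : count2m hn (count2phi u) ⟨count2l u, count2_l_lt hn u⟩ =
      count2m hn (count2phi v) ⟨count2l v, count2_l_lt hn v⟩ :=
    congrArg (fun x : {m : Mon n (s + 1) // Hits s c m.1} => x.1.1) huv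
  have hφ : count2phi u = count2phi v := by
    funext i
    apply Fin.ext
    apply le_antisymm
    · exact count2_le hn _ _ _ _ (fun i hi => count2_P hc u i hi) h.symm i
    · exact count2_le hn _ _ _ _ (fun i hi => count2_P hc v i hi) h i
  apply count2_pair_inj hc u v hφ
  rw [hφ] at h
  unfold count2m at h
  have h2 := add_left_cancel h
  have h3 := Finsupp.single_left_injective (one_ne_zero) h2
  exact congrArg Fin.val h3

-- job 32026
section frame

variable {n c s : ℕ} {A : Type*} [CommRing A] {B : Type*} [CommRing B]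

/-- square part of the generic matrix -/
def frMM (e : ∀ i : Fin s, Fin (n - c) ≃ {x : Fin n // ¬ x.val / c = i.val})
    (L : Fin s → Fin (n - c) → Fin n → A) (i : Fin s) : Matrix (Fin (n - c)) (Fin (n - c)) A :=
  Matrix.of fun a b => L i a (e i b).1

/-- unnormalised frame -/
def frGG (e : ∀ i : Fin s, Fin (n - c) ≃ {x : Fin n // ¬ x.val / c = i.val})
    (L : Fin s → Fin (n - c) → Fin n → A) : Matrix (Fin n) (Fin n) A :=
  Matrix.of fun x y => if h : y.val / c < s then
      (if x = y then (frMM e L ⟨y.val / c, h⟩).det else 0) +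
      (if hx : x.val / c = y.val / c then 0 else
        -(((frMM e L ⟨y.val / c, h⟩).adjugate.mulVec (fun a => L ⟨y.val / c, h⟩ a y))
          ((e ⟨y.val / c, h⟩).symm ⟨x, hx⟩)))
    else if x = y then 1 else 0

theorem frMM_map (e : ∀ i : Fin s, Fin (n - c) ≃ {x : Fin n // ¬ x.val / c = i.val})
    (L : Fin s → Fin (n - c) → Fin n → A) (φ : A →+* B) (i : Fin s) :
    (frMM e L i).map φ = frMM e (fun i a x => φ (L i a x)) i := rfl

theorem frGG_map (e : ∀ i : Fin s, Fin (n - c) ≃ {x : Fin n // ¬ x.val / c = i.val})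
    (L : Fin s → Fin (n - c) → Fin n → A) (φ : A →+* B) :
    (frGG e L).map φ = frGG e (fun i a x => φ (L i a x)) := by
  ext x y
  rw [Matrix.map_apply]
  unfold frGG
  rw [Matrix.of_apply, Matrix.of_apply]
  by_cases h : y.val / c < s
  · rw [dif_pos h, dif_pos h, map_add]
    congr 1
    · split_ifs
      · rw [RingHom.map_det]
        rfl
      · exact map_zero φ
    · split_ifs with hx
      · exact map_zero φ
      · rw [map_neg, RingHom.map_mulVec]
        congr 2
        have h1 := RingHom.map_adjugate φ (frMM e L ⟨y.val / c, h⟩)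
        have h2 : (frMM e L ⟨y.val / c, h⟩).adjugate.map φ =
            (frMM e (fun i a x => φ (L i a x)) ⟨y.val / c, h⟩).adjugate := h1
        rw [h2]
  · rw [dif_neg h, dif_neg h]
    split_ifs
    · exact map_one φ
    · exact map_zero φ

theorem frGG_rel (e : ∀ i : Fin s, Fin (n - c) ≃ {x : Fin n // ¬ x.val / c = i.val})
    (L : Fin s → Fin (n - c) → Fin n → A) (i : Fin s) (y : Fin n) (hy : y.val / c = i.val)
    (a : Fin (n - c)) : ∑ x, L i a x * frGG e L x y = 0 := by
  have h : y.val / c < s := by rw [hy]; exact i.2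
  have hi : (⟨y.val / c, h⟩ : Fin s) = i := Fin.ext hy
  have hG : ∀ x, frGG e L x y = (if x = y then (frMM e L i).det else 0) +
      (if hx : x.val / c = i.val then 0 else
        -(((frMM e L i).adjugate.mulVec (fun a => L i a y)) ((e i).symm ⟨x, hx⟩))) := by
    intro x
    subst hi
    unfold frGG
    rw [Matrix.of_apply, dif_pos h]
  simp only [hG, mul_add, Finset.sum_add_distrib]
  have h1 : ∑ x, L i a x * (if x = y then (frMM e L i).det else 0) =
      L i a y * (frMM e L i).det := by
    simp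
  rw [h1, ← Fintype.sum_subtype_add_sum_subtype (fun x : Fin n => x.val / c = i.val)]
  have h2 : ∑ x : {x : Fin n // x.val / c = i.val}, L i a x.1 *
      (if hx : x.1.val / c = i.val then 0 else
        -(((frMM e L i).adjugate.mulVec (fun a => L i a y)) ((e i).symm ⟨x.1, hx⟩))) = 0 := by
    refine Finset.sum_eq_zero fun x _ => ?_
    rw [dif_pos x.2, mul_zero]
  have h3 : ∑ x : {x : Fin n // ¬ x.val / c = i.val}, L i a x.1 *
      (if hx : x.1.val / c = i.val then 0 else
        -(((frMM e L i).adjugate.mulVec (fun a => L i a y)) ((e i).symm ⟨x.1, hx⟩))) =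
      -(((frMM e L i) * (frMM e L i).adjugate).mulVec (fun a => L i a y) a) := by
    rw [← (e i).sum_comp, ← Matrix.mulVec_mulVec]
    show _ = -(∑ b, frMM e L i a b * ((frMM e L i).adjugate.mulVec (fun a => L i a y)) b)
    rw [← Finset.sum_neg_distrib]
    refine Finset.sum_congr rfl fun b _ => ?_
    rw [dif_neg (e i b).2]
    have : (⟨(e i b).1, (e i b).2⟩ : {x : Fin n // ¬ x.val / c = i.val}) = e i b := rfl
    rw [this, Equiv.symm_apply_apply, mul_neg]
    rfl
  rw [h2, h3, Matrix.mul_adjugate, Matrix.smul_mulVec, Matrix.one_mulVec, Pi.smul_apply,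
    smul_eq_mul]
  ring

/-- special point -/
def frL0 (A : Type*) [CommRing A] (e : ∀ i : Fin s, Fin (n - c) ≃ {x : Fin n // ¬ x.val / c = i.val})
    (i : Fin s) (a : Fin (n - c)) (x : Fin n) : A :=
  if hx : x.val / c = i.val then 0 else if a = (e i).symm ⟨x, hx⟩ then 1 else 0

theorem frMM_L0 (e : ∀ i : Fin s, Fin (n - c) ≃ {x : Fin n // ¬ x.val / c = i.val}) (i : Fin s) :
    frMM e (frL0 A e) i = 1 := by
  ext a b
  unfold frMM frL0
  rw [Matrix.of_apply, dif_neg (e i b).2]
  have : (⟨(e i b).1, (e i b).2⟩ : {x : Fin n // ¬ x.val / c = i.val}) = e i b := rfl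
  rw [this, Equiv.symm_apply_apply, Matrix.one_apply]

theorem frGG_L0 (e : ∀ i : Fin s, Fin (n - c) ≃ {x : Fin n // ¬ x.val / c = i.val}) :
    frGG e (frL0 A e) = 1 := by
  ext x y
  unfold frGG
  rw [Matrix.of_apply, Matrix.one_apply]
  by_cases h : y.val / c < s
  · rw [dif_pos h, frMM_L0]
    have h0 : (fun a => frL0 A e ⟨y.val / c, h⟩ a y) = 0 := by
      funext a
      unfold frL0
      rw [dif_pos rfl]
      rfl
    rw [h0, Matrix.mulVec_zero, Matrix.det_one]
    simp
  · rw [dif_neg h]

theorem fr_card (hc : 0 < c) (hn : s * c ≤ n) (i : Fin s) :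
    Fintype.card {x : Fin n // ¬ x.val / c = i.val} = n - c := by
  rw [Fintype.card_subtype_compl, Fintype.card_fin]
  congr 1
  have hic : i.val * c + c ≤ n := by
    have h1 : (i.val + 1) * c ≤ s * c := Nat.mul_le_mul_right c i.2
    have h2 : (i.val + 1) * c = i.val * c + c := by ring
    omega
  let f : Fin c ≃ {x : Fin n // x.val / c = i.val} :=
    { toFun := fun r => ⟨⟨i.val * c + r.val, by have := r.2; omega⟩, by
        show (i.val * c + r.val) / c = i.val
        rw [mul_comm, Nat.mul_add_div hc, Nat.div_eq_of_lt r.2, add_zero]⟩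
      invFun := fun x => ⟨x.1.val % c, Nat.mod_lt _ hc⟩
      left_inv := fun r => by
        apply Fin.ext
        show (i.val * c + r.val) % c = r.val
        rw [mul_comm, Nat.mul_add_mod, Nat.mod_eq_of_lt r.2]
      right_inv := fun x => by
        apply Subtype.ext
        apply Fin.ext
        show i.val * c + x.1.val % c = x.1.val
        have h1 := Nat.div_add_mod x.1.val c
        rw [x.2] at h1
        rw [mul_comm i.val c]
        exact h1 }
  rw [← Fintype.card_congr f, Fintype.card_fin]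

end frame

/-- (b) -/
theorem generic_frame (n c s : ℕ) (hc : 0 < c) (hn : s * c ≤ n) (K : Type) [Field K]
    [Algebra (MvPolynomial (Fin s × Fin (n - c) × Fin n) ℂ) K]
    [IsFractionRing (MvPolynomial (Fin s × Fin (n - c) × Fin n) ℂ) K] :
    ∃ g : Matrix (Fin n) (Fin n) K, g.det ≠ 0 ∧
      (∀ x y : Fin n, ¬ (y.val / c < s ∧ x.val / c ≠ y.val / c) → g x y = if x = y then 1 else 0) ∧
      (∀ i : Fin s, ∀ y : Fin n, y.val / c = i.val → ∀ a : Fin (n - c),
        ∑ x, algebraMap (MvPolynomial (Fin s × Fin (n - c) × Fin n) ℂ) K (X (i, a, x)) * g x y = 0) := by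
  classical
  have hcard : ∀ i : Fin s, Fintype.card (Fin (n - c)) =
      Fintype.card {x : Fin n // ¬ x.val / c = i.val} := fun i => by
    rw [fr_card hc hn i, Fintype.card_fin]
  let e : ∀ i : Fin s, Fin (n - c) ≃ {x : Fin n // ¬ x.val / c = i.val} := fun i =>
    Fintype.equivOfCardEq (hcard i)
  let LR : Fin s → Fin (n - c) → Fin n → MvPolynomial (Fin s × Fin (n - c) × Fin n) ℂ :=
    fun i a x => X (i, a, x)
  let φ : MvPolynomial (Fin s × Fin (n - c) × Fin n) ℂ →+* K :=
    algebraMap (MvPolynomial (Fin s × Fin (n - c) × Fin n) ℂ) K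
  have hφ : Function.Injective φ := IsFractionRing.injective _ K
  let ev : MvPolynomial (Fin s × Fin (n - c) × Fin n) ℂ →+* ℂ :=
    (eval fun p : Fin s × Fin (n - c) × Fin n => frL0 ℂ e p.1 p.2.1 p.2.2)
  have hev : (fun i a x => ev (LR i a x)) = frL0 ℂ e := by
    funext i a x
    show eval _ (X (i, a, x)) = _
    rw [eval_X]
  let LK : Fin s → Fin (n - c) → Fin n → K := fun i a x => φ (LR i a x)
  have hD : ∀ i, (frMM e LK i).det ≠ 0 := by
    intro i
    have h1 : (frMM e LK i).det = φ (frMM e LR i).det := by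
      rw [RingHom.map_det]
      rfl
    rw [h1]
    intro h0
    have h2 : (frMM e LR i).det = 0 := hφ (by rw [h0, map_zero])
    have h3 : ev (frMM e LR i).det = 1 := by
      rw [RingHom.map_det]
      have h4 : ev.mapMatrix (frMM e LR i) = frMM e (fun i a x => ev (LR i a x)) i := rfl
      rw [h4, hev, frMM_L0, Matrix.det_one]
    rw [h2, map_zero] at h3
    exact zero_ne_one h3
  have hG : (frGG e LK).det ≠ 0 := by
    have h1 : (frGG e LK).det = φ (frGG e LR).det := by
      rw [RingHom.map_det]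
      congr 1
      exact (frGG_map e LR φ).symm
    rw [h1]
    intro h0
    have h2 : (frGG e LR).det = 0 := hφ (by rw [h0, map_zero])
    have h3 : ev (frGG e LR).det = 1 := by
      rw [RingHom.map_det]
      have h4 : ev.mapMatrix (frGG e LR) = frGG e (fun i a x => ev (LR i a x)) :=
        frGG_map e LR ev
      rw [h4, hev, frGG_L0, Matrix.det_one]
    rw [h2, map_zero] at h3
    exact zero_ne_one h3
  let d : Fin n → K := fun y => if h : y.val / c < s then ((frMM e LK ⟨y.val / c, h⟩).det)⁻¹ else 1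
  have hd : ∀ y, d y ≠ 0 := by
    intro y
    show (if h : y.val / c < s then ((frMM e LK ⟨y.val / c, h⟩).det)⁻¹ else 1) ≠ 0
    split_ifs with h
    · exact inv_ne_zero (hD _)
    · exact one_ne_zero
  refine ⟨frGG e LK * Matrix.diagonal d, ?_, ?_, ?_⟩
  · rw [Matrix.det_mul, Matrix.det_diagonal]
    exact mul_ne_zero hG (Finset.prod_ne_zero_iff.2 fun y _ => hd y)
  · intro x y hxy
    rw [Matrix.mul_diagonal]
    unfold frGG
    rw [Matrix.of_apply]
    by_cases h : y.val / c < s
    · have hx : x.val / c = y.val / c := by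
        by_contra hne
        exact hxy ⟨h, hne⟩
      rw [dif_pos h, dif_pos hx, add_zero]
      have hdy : d y = ((frMM e LK ⟨y.val / c, h⟩).det)⁻¹ := dif_pos h
      rw [hdy]
      split_ifs
      · exact mul_inv_cancel₀ (hD _)
      · exact zero_mul _
    · rw [dif_neg h]
      have hdy : d y = 1 := dif_neg h
      rw [hdy, mul_one]
  · intro i y hy a
    have h1 := frGG_rel e LK i y hy a
    have h2 : ∀ x, algebraMap (MvPolynomial (Fin s × Fin (n - c) × Fin n) ℂ) K (X (i, a, x)) *
        (frGG e LK * Matrix.diagonal d) x y = (LK i a x * frGG e LK x y) * d y := by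
      intro x
      rw [Matrix.mul_diagonal]
      show LK i a x * (frGG e LK x y * d y) = _
      ring
    rw [Finset.sum_congr rfl fun x _ => h2 x, ← Finset.sum_mul, h1, zero_mul]

end Pool.Agent.Helper909.SubRank
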