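import Pool.Agent.Helper909.SubRank.Lin
import Pool.Agent.Helper909.SubRank.Tools
set_option autoImplicit false
namespace Pool.Agent.Helper909.SubRank
open MvPolynomial

section
variable (n k c s : ℕ)

abbrev Par := {p : Fin n × Fin n // p.2.val / c < s ∧ p.1.val / c ≠ p.2.val / c} ⊕
  {m : Mon n k // ¬ Hits s c m.1}

open Classical in
noncomputable def gU : Matrix (Fin n) (Fin n) (MvPolynomial (Par n k c s) ℂ) := fun x y =>
  if h : y.val / c < s ∧ x.val / c ≠ y.val / c then X (Sum.inl ⟨(x, y), h⟩) else
    if x = y then 1 else 0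

open Classical in
noncomputable def fU : MvPolynomial (Fin n) (MvPolynomial (Par n k c s) ℂ) :=
  haveI := Fintype.ofFinite {m : Mon n k // ¬ Hits s c m.1}
  ∑ m : {m : Mon n k // ¬ Hits s c m.1}, monomial m.1.1 (X (Sum.inr m))

end

theorem not_fills (n k c s : ℕ) (hc : 0 < c) (hn : s * c ≤ n)
    (hT : s * c * (n - c) < Nat.card {m : Mon n k // Hits s c m.1}) :
    ¬ Fills n k (n - c) s := by
  classical
  intro hFills
  have hcard : Nat.card (Par n k c s) < Nat.card (Mon n k) := by
    have h1 : Nat.card (Par n k c s) = s * c * (n - c) + Nat.card {m : Mon n k // ¬ Hits s c m.1} := by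
      rw [Nat.card_sum, card_params n c s hc hn]
    have h2 : Nat.card (Mon n k) = Nat.card {m : Mon n k // Hits s c m.1} +
        Nat.card {m : Mon n k // ¬ Hits s c m.1} := by
      rw [← Nat.card_sum]
      exact Nat.card_congr (Equiv.sumCompl (fun m : Mon n k => Hits s c m.1)).symm
    omega
  obtain ⟨F, hF0, hF⟩ := algDep hcard
    (fun m : Mon n k => coeff m.1 (lin (gU n k c s).adjugate (fU n k c s)))
  apply hF0
  apply hFills F
  rintro f ⟨t, ht, rfl⟩
  choose h L hh ht2 using ht
  let R := MvPolynomial (Fin s × Fin (n - c) × Fin n) ℂ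
  let K := FractionRing R
  obtain ⟨g, hdet, hg1, hg2⟩ := generic_frame n c s hc hn K
  let Lg : Fin s → Matrix (Fin (n - c)) (Fin n) R := fun i a x => X (i, a, x)
  let fR : MvPolynomial (Fin n) R := ∑ i, lin (Lg i) (map (algebraMap ℂ R) (h i))
  let fK : MvPolynomial (Fin n) K := map (algebraMap R K) fR
  have hfK : fK = ∑ i, lin ((Lg i).map (algebraMap R K))
      (map (algebraMap R K) (map (algebraMap ℂ R) (h i))) := by
    simp only [fK, fR, map_sum, lin_map]
  have hfKhom : fK.IsHomogeneous k := by
    rw [hfK]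
    apply IsHomogeneous.sum
    intro i _
    exact lin_homogeneous _ (((hh i).map _).map _)
  let f1 := lin g fK
  have hf1hom : f1.IsHomogeneous k := lin_homogeneous _ hfKhom
  have hf1 : ∀ m, Hits s c m → coeff m f1 = 0 := by
    intro m hm
    simp only [f1, hfK, map_sum, coeff_sum]
    refine Finset.sum_eq_zero fun i _ => ?_
    rw [lin_lin]
    obtain ⟨y, hy, hmy⟩ := hm i.val i.isLt
    apply lin_zero_col _ y _ _ _ hmy
    intro a
    rw [Matrix.mul_apply]
    exact hg2 i y hy a
  let d := g.det
  let y : Par n k c s → K := Sum.elim (fun p => g p.1.1 p.1.2) (fun m => (d ^ k)⁻¹ * coeff m.1.1 f1)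
  let ε : MvPolynomial (Par n k c s) ℂ →ₐ[ℂ] K := aeval y
  have hgU : (gU n k c s).map ε.toRingHom = g := by
    ext x z
    simp only [Matrix.map_apply, gU]
    split_ifs with h1 h2
    · simp [ε, y]
    · rw [hg1 x z h1, if_pos h2]; simp
    · rw [hg1 x z h1, if_neg h2]; simp
  have hfU : map ε.toRingHom (fU n k c s) = C ((d ^ k)⁻¹) * f1 := by
    ext m
    rw [coeff_C_mul]
    simp only [fU, map_sum, map_monomial, coeff_sum, coeff_monomial]
    by_cases hm : ∃ m' : {m : Mon n k // ¬ Hits s c m.1}, m'.1.1 = m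
    · obtain ⟨m', rfl⟩ := hm
      rw [Finset.sum_eq_single m']
      · simp [ε, y]
      · intro b _ hb
        rw [if_neg]
        intro h
        exact hb (Subtype.ext (Subtype.ext h))
      · simp
    · rw [Finset.sum_eq_zero]
      · symm
        by_cases hH : Hits s c m
        · rw [hf1 m hH, mul_zero]
        · by_cases hd : m.degree = k
          · exact absurd ⟨⟨⟨m, hd⟩, hH⟩, rfl⟩ hm
          · rw [hf1hom.coeff_eq_zero hd, mul_zero]
      · intro b _
        rw [if_neg]
        intro h
        exact hm ⟨b, h⟩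
  have hd0 : d ^ k ≠ 0 := pow_ne_zero _ hdet
  have hback : lin g.adjugate (C ((d ^ k)⁻¹) * f1) = fK := by
    rw [map_mul, lin_lin, Matrix.mul_adjugate, lin_smul_one _ hfKhom, lin, algHom_C,
      MvPolynomial.algebraMap_eq, ← mul_assoc, ← C_mul, inv_mul_cancel₀ hd0, C_1, one_mul]
  have hq : ∀ m : Mon n k, ε (coeff m.1 (lin (gU n k c s).adjugate (fU n k c s))) =
      algebraMap R K (coeff m.1 fR) := by
    intro m
    have e1 : ε (coeff m.1 (lin (gU n k c s).adjugate (fU n k c s))) =
        coeff m.1 (map ε.toRingHom (lin (gU n k c s).adjugate (fU n k c s))) := by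
      rw [coeff_map]; rfl
    rw [e1, lin_map, hfU]
    have e2 : (gU n k c s).adjugate.map ε.toRingHom = g.adjugate := by
      rw [← hgU]
      exact (RingHom.map_adjugate ε.toRingHom (gU n k c s))
    rw [e2, hback, coeff_map]
  have hR : aeval (fun m : Mon n k => coeff m.1 fR) F = 0 := by
    apply IsFractionRing.injective R K
    rw [map_zero, ← map_zero ε, ← hF]
    have e3 : ε (aeval (fun m : Mon n k => coeff m.1 (lin (gU n k c s).adjugate (fU n k c s))) F) =
        aeval (fun m : Mon n k => ε (coeff m.1 (lin (gU n k c s).adjugate (fU n k c s)))) F := by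
      rw [← AlgHom.comp_apply]
      congr 1
      apply MvPolynomial.algHom_ext
      intro i
      simp
    rw [e3]
    simp only [hq]
    have e4 : algebraMap R K (aeval (fun m : Mon n k => coeff m.1 fR) F) =
        aeval (fun m : Mon n k => algebraMap R K (coeff m.1 fR)) F := by
      have := (IsScalarTower.toAlgHom ℂ R K).comp (aeval (fun m : Mon n k => coeff m.1 fR))
      have h5 : (IsScalarTower.toAlgHom ℂ R K).comp (aeval (fun m : Mon n k => coeff m.1 fR)) =
          aeval (fun m : Mon n k => algebraMap R K (coeff m.1 fR)) := by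
        apply MvPolynomial.algHom_ext
        intro i
        simp
      rw [← h5]; rfl
    rw [e4]
  let ev : R →ₐ[ℂ] ℂ := aeval (fun p => L p.1 p.2.1 p.2.2)
  have hev : map ev.toRingHom fR = ∑ i, t i := by
    simp only [fR, map_sum, lin_map]
    refine Finset.sum_congr rfl fun i _ => ?_
    rw [ht2 i, map_map]
    have e5 : ev.toRingHom.comp (algebraMap ℂ R) = RingHom.id ℂ := by
      ext z; exact ev.commutes z
    have e6 : (Lg i).map ev.toRingHom = L i := by
      ext a x
      exact aeval_X (fun p : Fin s × Fin (n - c) × Fin n => L p.1 p.2.1 p.2.2) (i, a, x)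
    rw [e5, map_id, e6]
  have h7 : eval (fun m : Mon n k => coeff m.1 (∑ i, t i)) F =
      ev (aeval (fun m : Mon n k => coeff m.1 fR) F) := by
    have h8 : ev.comp (aeval (fun m : Mon n k => coeff m.1 fR)) =
        aeval (fun m : Mon n k => coeff m.1 (∑ i, t i)) := by
      apply MvPolynomial.algHom_ext
      intro i
      simp only [AlgHom.comp_apply, aeval_X]
      rw [← hev, coeff_map]; rfl
    rw [← MvPolynomial.coe_aeval_eq_eval, ← h8]; rfl
  rw [h7, hR, map_zero]

end Pool.Agent.Helper909.SubRank
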