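import Pool.Agent.Helper909.SubRank.Upper
import Pool.Agent.Helper909.SubRank.Lower
set_option autoImplicit false
namespace Pool.Agent.Helper909.SubRank
open MvPolynomial

theorem zero_mem_sub (n k r : ℕ) : (0 : MvPolynomial (Fin n) ℂ) ∈ Sub n k r :=
  ⟨0, 0, isHomogeneous_zero _ _ _, by simp⟩

theorem sums_succ (n k r s : ℕ) : Sums n k r s ⊆ Sums n k r (s + 1) := by
  rintro f ⟨g, hg, rfl⟩
  refine ⟨Fin.cons 0 g, ?_, ?_⟩
  · intro i
    refine Fin.cases ?_ (fun j => ?_) i
    · simpa using zero_mem_sub n k r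
    · simpa using hg j
  · simp [Fin.sum_univ_succ]

theorem sums_mono (n k r : ℕ) {s t : ℕ} (h : s ≤ t) : Sums n k r s ⊆ Sums n k r t := by
  induction h with
  | refl => exact le_refl _
  | step _ ih => exact ih.trans (sums_succ _ _ _ _)

theorem fills_mono (n k r : ℕ) {s t : ℕ} (h : s ≤ t) (hs : Fills n k r s) : Fills n k r t :=
  fun F hF => hs F fun f hf => hF f (sums_mono n k r h hf)

theorem sum_succ_mem {n k r s : ℕ} {f g : MvPolynomial (Fin n) ℂ} (hf : f ∈ Sub n k r)
    (hg : g ∈ Sums n k r s) : f + g ∈ Sums n k r (s + 1) := by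
  obtain ⟨t, ht, rfl⟩ := hg
  refine ⟨Fin.cons f t, ?_, ?_⟩
  · intro i
    refine Fin.cases ?_ (fun j => ?_) i
    · simpa using hf
    · simpa using ht j
  · simp [Fin.sum_univ_succ]

theorem fills_of_all {n k r s : ℕ} (h : ∀ f : MvPolynomial (Fin n) ℂ, f.IsHomogeneous k → f ∈ Sums n k r s) :
    Fills n k r s := by
  classical
  haveI := Fintype.ofFinite (Mon n k)
  intro F hF
  apply MvPolynomial.funext
  intro x
  rw [map_zero]
  let f : MvPolynomial (Fin n) ℂ := ∑ m : Mon n k, monomial m.1 (x m)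
  have hf : f.IsHomogeneous k := by
    apply IsHomogeneous.sum
    intro m _
    exact isHomogeneous_monomial _ m.2
  have hx : (fun m : Mon n k => coeff m.1 f) = x := by
    ext m
    simp only [f, coeff_sum, coeff_monomial]
    rw [Finset.sum_eq_single m]
    · simp
    · intro b _ hb
      rw [if_neg]
      exact fun h => hb (Subtype.ext h)
    · simp
  have := hF f (h f hf)
  rwa [hx] at this

theorem all_succ {n k c : ℕ} (hc : 0 < c) (hn : (k + 1) * c ≤ n) (f : MvPolynomial (Fin n) ℂ)
    (hf : f.IsHomogeneous k) : f ∈ Sums n k (n - c) (k + 1) := by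
  apply mem_sums_of_misses n k c (k + 1) hc hn f hf
  intro m hm
  have := hits_degree m hm
  exact hf.coeff_eq_zero (by omega)

theorem all_k {n s c : ℕ} (hc : 0 < c) (hn : c ^ s + (s + 1) * c ≤ n) (f : MvPolynomial (Fin n) ℂ)
    (hf : f.IsHomogeneous (s + 1)) : f ∈ Sums n (s + 1) (n - c) (s + 1) := by
  obtain ⟨h, hh, hz⟩ := ub_proj n c s hc hn f hf
  have hsc : s * c ≤ n := by
    have : (s + 1) * c = s * c + c := by ring
    omega
  have hhom : h.IsHomogeneous (s + 1) := by
    obtain ⟨h', L, hh', rfl⟩ := hh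
    exact lin_homogeneous _ hh'
  have h1 := mem_sums_of_misses n (s + 1) c s hc hsc (f - h) (hf.sub hhom) hz
  have := sum_succ_mem hh h1
  rwa [add_sub_cancel] at this

theorem rank_eq {n k r s : ℕ} (h1 : Fills n k r (s + 1)) (h2 : ¬ Fills n k r s) :
    genericRank n k r = s + 1 := by
  unfold genericRank
  apply le_antisymm
  · exact Nat.sInf_le h1
  · apply le_csInf ⟨_, h1⟩
    intro t ht
    by_contra hlt
    exact h2 (fills_mono n k r (by omega) ht)

end Pool.Agent.Helper909.SubRank
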