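import Pool.Agent.Helper909.SubRank.DomTools2
import Pool.Agent.Helper909.SubRank.Final
set_option autoImplicit false
namespace Pool.Agent.Helper909.SubRank
open MvPolynomial

section
variable {n k c ρ : ℕ}

abbrev DPar (n k c ρ : ℕ) := (Fin k × Fin ρ × Fin c) ⊕
  {p : Fin k × Mon n k // ∀ x : Fin n, x.val / c = p.1.val → p.2.1 x = 0}

open Classical in
noncomputable def Nm (hn : k * c + ρ ≤ n) (i : Fin k) :
    Matrix (Fin n) (Fin n) (MvPolynomial (DPar n k c ρ) ℂ) := fun x y =>
  (if x = y then 1 else 0) + ∑ t : Fin ρ, ∑ a : Fin c,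
    if x = Rv hn t ∧ y = Ev (le_trans (Nat.le_add_right _ _) hn) i a then X (Sum.inl (i, t, a)) else 0

open Classical in
noncomputable def zf (n k c ρ : ℕ) (i : Fin k) : MvPolynomial (Fin n) (MvPolynomial (DPar n k c ρ) ℂ) :=
  haveI := Fintype.ofFinite (Mon n k)
  ∑ m : Mon n k, if h : (∀ x : Fin n, x.val / c = i.val → m.1 x = 0) then
    monomial m.1 (X (Sum.inr ⟨(i, m), h⟩)) else 0

end

theorem Rv_inj {n k c ρ : ℕ} (hn : k * c + ρ ≤ n) {t t' : Fin ρ} (h : Rv hn t = Rv hn t') : t = t' := by
  have := congrArg Fin.val h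
  simp only [Rv] at this
  exact Fin.ext (by omega)

theorem Ev_inj {n k c : ℕ} (hn : k * c ≤ n) {i : Fin k} {a a' : Fin c} (h : Ev hn i a = Ev hn i a') : a = a' := by
  have := congrArg Fin.val h
  simp only [Ev] at this
  exact Fin.ext (by omega)

theorem Rv_ne_Ev {n k c ρ : ℕ} (hn : k * c + ρ ≤ n) (t : Fin ρ) (i : Fin k) (a : Fin c) :
    Rv hn t ≠ Ev (le_trans (Nat.le_add_right _ _) hn) i a := by
  intro h
  have := congrArg Fin.val h
  simp only [Rv, Ev] at this
  have h1 : i.val + 1 ≤ k := i.isLt
  have h2 := a.isLt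
  have h3 : (i.val + 1) * c ≤ k * c := Nat.mul_le_mul_right _ h1
  have h4 : (i.val + 1) * c = i.val * c + c := by ring
  omega

theorem Ev_div {n k c : ℕ} (hn : k * c ≤ n) (i : Fin k) (a : Fin c) : (Ev hn i a).val / c = i.val := by
  have h2 := a.isLt
  simp only [Ev]
  rw [mul_comm, Nat.mul_add_div (by omega), Nat.div_eq_of_lt h2, add_zero]

theorem dl_add {ι : Type} (p : ι) (a b : MvPolynomial ι ℂ) : dl p (a + b) = dl p a + dl p b := by
  simp [dl]

theorem dl_sum {ι α : Type} (p : ι) (s : Finset α) (g : α → MvPolynomial ι ℂ) :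
    dl p (∑ i ∈ s, g i) = ∑ i ∈ s, dl p (g i) := by
  simp [dl, map_sum]

theorem dl_X {ι : Type} [DecidableEq ι] (p q : ι) :
    dl p (X q : MvPolynomial ι ℂ) = if p = q then 1 else 0 := by
  simp only [dl, pderiv_X, Pi.single_apply]
  by_cases h : p = q
  · subst h; simp
  · have h' : ¬ (q = p) := fun e => h e.symm
    simp [h, h']

theorem dl_algebraMap {ι : Type} (p : ι) (a : ℂ) :
    dl p (algebraMap ℂ (MvPolynomial ι ℂ) a) = 0 := by
  simp [dl, MvPolynomial.algebraMap_eq]

theorem dl_zero {ι : Type} (p : ι) : dl p (0 : MvPolynomial ι ℂ) = 0 := by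
  simp [dl]

theorem dl_one {ι : Type} (p : ι) : dl p (1 : MvPolynomial ι ℂ) = 0 := by
  simp [dl]

open Classical in
theorem zf_coeff (n k c ρ : ℕ) (i : Fin k) (m : Mon n k) :
    coeff m.1 (zf n k c ρ i) = if h : (∀ x : Fin n, x.val / c = i.val → m.1 x = 0) then
      X (Sum.inr ⟨(i, m), h⟩) else 0 := by
  unfold zf
  rw [coeff_sum, Finset.sum_eq_single m]
  · split_ifs with h
    · simp
    · simp
  · intro b _ hb
    split_ifs with h
    · rw [coeff_monomial, if_neg]
      exact fun e => hb (Subtype.ext e)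
    · simp
  · simp

theorem zf_map_homogeneous (n k c ρ : ℕ) (i : Fin k) {A : Type} [CommRing A]
    (φ : MvPolynomial (DPar n k c ρ) ℂ →+* A) : (map φ (zf n k c ρ i)).IsHomogeneous k := by
  classical
  unfold zf
  rw [map_sum]
  apply IsHomogeneous.sum
  intro m _
  split_ifs with h
  · rw [map_monomial]; exact isHomogeneous_monomial _ m.2
  · rw [map_zero]; exact isHomogeneous_zero _ _ _

theorem zf_map_avoid (n k c ρ : ℕ) (i : Fin k) {A : Type} [CommRing A]
    (φ : MvPolynomial (DPar n k c ρ) ℂ →+* A) (m : Fin n →₀ ℕ)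
    (hm : coeff m (map φ (zf n k c ρ i)) ≠ 0) (x : Fin n) (hx : x.val / c = i.val) : m x = 0 := by
  classical
  by_cases hd : m.degree = k
  · rw [coeff_map, zf_coeff n k c ρ i ⟨m, hd⟩] at hm
    by_cases h : (∀ x : Fin n, x.val / c = i.val → (⟨m, hd⟩ : Mon n k).1 x = 0)
    · exact h x hx
    · rw [dif_neg h, map_zero] at hm
      exact absurd rfl hm
  · exact absurd ((zf_map_homogeneous n k c ρ i φ).coeff_eq_zero hd) hm

theorem mu_degree {n c s : ℕ} (hn : s * c ≤ n) (φ : Fin s → Fin c) : (mu hn φ).degree = s := by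
  unfold mu
  simp

open Classical in
theorem dl_Nm_inl {n k c ρ : ℕ} (hn : k * c + ρ ≤ n) (i i0 : Fin k) (t : Fin ρ) (a : Fin c) (x y : Fin n) :
    dl (Sum.inl (i0, t, a)) (Nm hn i x y) =
      if i = i0 ∧ x = Rv hn t ∧ y = Ev (le_trans (Nat.le_add_right _ _) hn) i0 a then 1 else 0 := by
  unfold Nm
  rw [dl_add, dl_sum]
  have h0 : dl (Sum.inl (i0, t, a)) (if x = y then (1 : MvPolynomial (DPar n k c ρ) ℂ) else 0) = 0 := by
    split_ifs
    · exact dl_one _
    · exact dl_zero _
  rw [h0, zero_add]
  simp only [dl_sum]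
  have h1 : ∀ (t' : Fin ρ) (a' : Fin c), dl (Sum.inl (i0, t, a))
      (if x = Rv hn t' ∧ y = Ev (le_trans (Nat.le_add_right _ _) hn) i a' then
        (X (Sum.inl (i, t', a')) : MvPolynomial (DPar n k c ρ) ℂ) else 0) =
      if (x = Rv hn t' ∧ y = Ev (le_trans (Nat.le_add_right _ _) hn) i a') ∧ (i0 = i ∧ t = t' ∧ a = a')
        then 1 else 0 := by
    intro t' a'
    split_ifs with h h' h'
    · rw [dl_X, if_pos]; rw [h'.2.1, h'.2.2.1, h'.2.2.2]
    · rw [dl_X, if_neg]
      intro e
      simp only [Sum.inl.injEq, Prod.mk.injEq] at e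
      exact h' ⟨h, e⟩
    · exact absurd h'.1 h
    · exact dl_zero _
  simp only [h1]
  by_cases hi : i = i0
  · subst hi
    rw [Finset.sum_eq_single t, Finset.sum_eq_single a]
    · simp
    · intro b _ hb
      rw [if_neg]
      rintro ⟨_, _, _, h⟩
      exact hb h.symm
    · simp
    · intro b _ hb
      apply Finset.sum_eq_zero
      intro a' _
      rw [if_neg]
      rintro ⟨_, _, h, _⟩
      exact hb h.symm
    · simp
  · rw [if_neg (fun h => hi h.1)]
    apply Finset.sum_eq_zero
    intro t' _
    apply Finset.sum_eq_zero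
    intro a' _
    rw [if_neg]
    rintro ⟨_, h, _⟩
    exact hi h.symm

theorem dl_Nm_inr {n k c ρ : ℕ} (hn : k * c + ρ ≤ n) (i : Fin k)
    (p : {p : Fin k × Mon n k // ∀ x : Fin n, x.val / c = p.1.val → p.2.1 x = 0}) (x y : Fin n) :
    dl (Sum.inr p : DPar n k c ρ) (Nm hn i x y) = 0 := by
  classical
  unfold Nm
  rw [dl_add, dl_sum]
  have h0 : dl (Sum.inr p : DPar n k c ρ) (if x = y then (1 : MvPolynomial (DPar n k c ρ) ℂ) else 0) = 0 := by
    split_ifs
    · exact dl_one _
    · exact dl_zero _
  rw [h0, zero_add]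
  apply Finset.sum_eq_zero
  intro t _
  rw [dl_sum]
  apply Finset.sum_eq_zero
  intro a _
  split_ifs
  · rw [dl_X, if_neg]; simp
  · exact dl_zero _

theorem Nm_zero {n k c ρ : ℕ} (hn : k * c + ρ ≤ n) (i : Fin k) (x y : Fin n) :
    eval (0 : DPar n k c ρ → ℂ) (Nm hn i x y) = if x = y then 1 else 0 := by
  classical
  unfold Nm
  rw [map_add, map_sum]
  rw [Finset.sum_eq_zero]
  · rw [add_zero]; split_ifs <;> simp
  · intro t _
    rw [map_sum]
    apply Finset.sum_eq_zero
    intro a _
    split_ifs <;> simp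

theorem zf_zero (n k c ρ : ℕ) (i : Fin k) :
    map (eval (0 : DPar n k c ρ → ℂ)) (zf n k c ρ i) = 0 := by
  classical
  unfold zf
  rw [map_sum]
  apply Finset.sum_eq_zero
  intro m _
  split_ifs
  · rw [map_monomial]; simp
  · simp

theorem fills_dom {n k c : ℕ} (hk : 3 ≤ k) (hc : 0 < c)
    (hn : k * c + c ^ (k - 2) * ((c + k - 1) / k) ≤ n) : Fills n k (n - c) k := by
  classical
  haveI := Fintype.ofFinite (Mon n k)
  have hkc : k * c ≤ n := le_trans (Nat.le_add_right _ _) hn
  obtain ⟨cls, u, hcls, hu, huv⟩ := exists_classes (fun row sg var => generic_weights row sg var)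
    k c (c ^ (k - 2) * ((c + k - 1) / k)) hk hc le_rfl
  generalize hρ : c ^ (k - 2) * ((c + k - 1) / k) = ρ at *
  haveI : Finite (DPar n k c ρ) := inferInstance
  haveI := Fintype.ofFinite (DPar n k c ρ)
  let bf : Fin k → MvPolynomial (Fin n) ℂ := fun i => baseForm hn hc cls u i
  let gg : Fin k → MvPolynomial (Fin n) (MvPolynomial (DPar n k c ρ) ℂ) := fun i =>
    map (algebraMap ℂ (MvPolynomial (DPar n k c ρ) ℂ)) (bf i) + zf n k c ρ i
  let G : MvPolynomial (Fin n) (MvPolynomial (DPar n k c ρ) ℂ) := ∑ i, lin (Nm hn i) (gg i)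
  have hgg0 : ∀ i, map (eval (0 : DPar n k c ρ → ℂ)) (gg i) = bf i := by
    intro i
    simp only [gg, map_add, zf_zero, add_zero, map_map]
    have : (eval (0 : DPar n k c ρ → ℂ)).comp (algebraMap ℂ (MvPolynomial (DPar n k c ρ) ℂ)) =
        RingHom.id ℂ := by
      ext z; simp [MvPolynomial.algebraMap_eq]
    rw [this, map_id]
  have hG : ∀ (p : DPar n k c ρ) (m : Mon n k), dl p (coeff m.1 G) =
      ∑ i, (dl p (coeff m.1 (zf n k c ρ i)) +
        coeff m.1 (∑ x, ∑ y, C (dl p (Nm hn i x y)) * X y * pderiv x (bf i))) := by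
    intro p m
    simp only [G, coeff_sum, dl_sum]
    refine Finset.sum_congr rfl fun i _ => ?_
    rw [coeff_dl_lin p (Nm hn i) (Nm_zero hn i), hgg0]
    congr 1
    · simp only [gg, coeff_add, dl_add, coeff_map, dl_algebraMap, zero_add]
    · simp only [coeff_sum]
  intro F hF
  apply jacobian_dominant (fun m : Mon n k => coeff m.1 G) ?_ F ?_
  · intro v hv
    have hv' : ∀ p : DPar n k c ρ, ∑ m, v m * dl p (coeff m.1 G) = 0 := hv
    -- monomials missing a block
    have step1 : ∀ (i0 : Fin k) (m0 : Mon n k), (∀ x : Fin n, x.val / c = i0.val → m0.1 x = 0) →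
        v m0 = 0 := by
      intro i0 m0 h0
      have h := hv' (Sum.inr ⟨(i0, m0), h0⟩)
      have e1 : ∀ m : Mon n k, dl (Sum.inr ⟨(i0, m0), h0⟩ : DPar n k c ρ) (coeff m.1 G) =
          if m = m0 then 1 else 0 := by
        intro m
        rw [hG]
        simp only [dl_Nm_inr, C_0, zero_mul, Finset.sum_const_zero, coeff_zero, add_zero]
        rw [Finset.sum_eq_single i0]
        · rw [zf_coeff]
          by_cases hm : m = m0
          · subst hm
            rw [dif_pos h0, dl_X]; simp
          · rw [if_neg hm]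
            split_ifs with h1
            · rw [dl_X, if_neg]
              intro e
              simp only [Sum.inr.injEq, Subtype.mk.injEq, Prod.mk.injEq, true_and] at e
              exact hm e.symm
            · exact dl_zero _
        · intro i _ hi
          rw [zf_coeff]
          split_ifs with h1
          · rw [dl_X, if_neg]
            intro e
            simp only [Sum.inr.injEq, Subtype.mk.injEq, Prod.mk.injEq] at e
            exact hi e.1.symm
          · exact dl_zero _
        · simp
      simp only [e1, mul_ite, mul_one, mul_zero, Finset.sum_ite_eq', Finset.mem_univ, if_true] at h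
      exact h
    have step2 : (fun x : Fin k → Fin c => v ⟨mu hkc x, mu_degree hkc x⟩) = 0 := by
      apply huv
      intro i a t
      have h := hv' (Sum.inl (i, t, a))
      have e1 : ∀ m : Mon n k, dl (Sum.inl (i, t, a) : DPar n k c ρ) (coeff m.1 G) =
          coeff m.1 (X (Ev hkc i a) * pderiv (Rv hn t) (bf i)) := by
        intro m
        rw [hG, Finset.sum_eq_single i]
        · have z0 : dl (Sum.inl (i, t, a) : DPar n k c ρ) (coeff m.1 (zf n k c ρ i)) = 0 := by
            rw [zf_coeff]
            split_ifs with h1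
            · rw [dl_X, if_neg]; simp
            · exact dl_zero _
          rw [z0, zero_add]
          congr 1
          rw [Finset.sum_eq_single (Rv hn t), Finset.sum_eq_single (Ev hkc i a)]
          · rw [dl_Nm_inl, if_pos ⟨rfl, rfl, rfl⟩, C_1, one_mul]
          · intro y _ hy
            rw [dl_Nm_inl, if_neg (fun h => hy h.2.2), C_0, zero_mul, zero_mul]
          · simp
          · intro x _ hx
            apply Finset.sum_eq_zero
            intro y _
            rw [dl_Nm_inl, if_neg (fun h => hx h.2.1), C_0, zero_mul, zero_mul]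
          · simp
        · intro i' _ hi'
          have z0 : dl (Sum.inl (i, t, a) : DPar n k c ρ) (coeff m.1 (zf n k c ρ i')) = 0 := by
            rw [zf_coeff]
            split_ifs with h1
            · rw [dl_X, if_neg]; simp
            · exact dl_zero _
          rw [z0, zero_add]
          have : (∑ x, ∑ y, C (dl (Sum.inl (i, t, a) : DPar n k c ρ) (Nm hn i' x y)) * X y *
              pderiv x (bf i')) = 0 := by
            apply Finset.sum_eq_zero
            intro x _
            apply Finset.sum_eq_zero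
            intro y _
            rw [dl_Nm_inl, if_neg (fun h => hi' h.1), C_0, zero_mul, zero_mul]
          rw [this, coeff_zero]
        · simp
      simp only [e1] at h
      have e2 : X (Ev hkc i a) * pderiv (Rv hn t) (bf i) =
          ∑ x ∈ Finset.univ.filter (fun x : Fin k → Fin c => x i = a ∧ cls i x = t),
            monomial (mu hkc x) (u i x) := tangent_form hn hc cls u hcls hu i t a
      rw [e2] at h
      simp only [coeff_sum, coeff_monomial, Finset.mul_sum] at h
      rw [Finset.sum_comm] at h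
      rw [← h]
      refine Finset.sum_congr rfl fun x _ => ?_
      rw [Finset.sum_eq_single (⟨mu hkc x, mu_degree hkc x⟩ : Mon n k)]
      · simp [mul_comm]
      · intro b _ hb
        rw [if_neg, mul_zero]
        exact fun e => hb (Subtype.ext e.symm)
      · simp
    funext m
    by_cases hm : Hits k c m.1
    · obtain ⟨φ, hφ⟩ := hits_mu hc hkc m.1 m.2 hm
      have h3 := congrFun step2 φ
      have h4 : m = ⟨mu hkc φ, mu_degree hkc φ⟩ := Subtype.ext hφ
      rw [h4]
      exact h3
    · unfold Hits at hm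
      push Not at hm
      obtain ⟨i, hi, hx⟩ := hm
      exact step1 ⟨i, hi⟩ m hx
  · apply MvPolynomial.funext
    intro θ
    rw [map_zero]
    have hmem : map (eval θ) G ∈ Sums n k (n - c) k := by
      refine ⟨fun i => lin ((Nm hn i).map (eval θ)) (map (eval θ) (gg i)), ?_, ?_⟩
      · intro i
        have hg1 : map (eval θ) (gg i) = bf i + map (eval θ) (zf n k c ρ i) := by
          simp only [gg, map_add, map_map]
          have : (eval θ).comp (algebraMap ℂ (MvPolynomial (DPar n k c ρ) ℂ)) = RingHom.id ℂ := by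
            ext z; simp [MvPolynomial.algebraMap_eq]
          rw [this, map_id]
        apply lin_mem_sub_of_avoid n k c i.val hc
        · exact le_trans (Nat.mul_le_mul_right _ i.isLt) hkc
        · rw [hg1]
          exact (baseForm_homogeneous hn hc cls u i).add (zf_map_homogeneous _ _ _ _ _ _)
        · intro m hm x hx
          rw [hg1, coeff_add] at hm
          by_cases hb : coeff m (bf i) = 0
          · rw [hb, zero_add] at hm
            exact zf_map_avoid _ _ _ _ i _ m hm x hx
          · exact baseForm_avoid hn hc cls u i m hb x hx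
      · simp only [G, map_sum, lin_map]
    have h5 := hF _ hmem
    have h6 : eval θ (aeval (fun m : Mon n k => coeff m.1 G) F) =
        eval (fun m : Mon n k => coeff m.1 (map (eval θ) G)) F := by
      have h7 : (aeval θ : MvPolynomial (DPar n k c ρ) ℂ →ₐ[ℂ] ℂ).comp
          (aeval (fun m : Mon n k => coeff m.1 G)) =
          aeval (fun m : Mon n k => coeff m.1 (map (eval θ) G)) := by
        apply MvPolynomial.algHom_ext
        intro m
        simp [coeff_map]
      have h8 := congrArg (fun f => f F) h7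
      simpa using h8
    rw [h6, h5]

end Pool.Agent.Helper909.SubRank
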