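import Pool.Agent.Helper909.SubRank.Tools2
set_option autoImplicit false
namespace Pool.Agent.Helper909.SubRank
open MvPolynomial

-- job 33027
theorem jd_chain {ι κ : Type} [Fintype κ] (φ : κ → MvPolynomial ι ℂ) (p : ι)
    (F : MvPolynomial κ ℂ) :
    pderiv p (aeval φ F) = ∑ m, aeval φ (pderiv m F) * pderiv p (φ m) := by
  classical
  induction F using MvPolynomial.induction_on with
  | C a => simp [aeval_C, algebraMap_eq]
  | add f g hf hg =>
    simp only [map_add, hf, hg, add_mul, Finset.sum_add_distrib]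
  | mul_X f n hf =>
    simp only [map_mul, aeval_X, pderiv_mul, hf, map_add, add_mul, Finset.sum_add_distrib, pderiv_X]
    congr 1
    · rw [Finset.sum_mul]
      exact Finset.sum_congr rfl fun m _ => by ring
    · rw [Finset.sum_eq_single n]
      · simp
      · intro b _ hb
        rw [Pi.single_eq_of_ne (Ne.symm hb)]
        simp
      · simp

theorem jd_zero {ι κ : Type} [Fintype κ] (g : κ → ι → MvPolynomial ι ℂ)
    (H : ∀ v : κ → ℂ, (∀ p : ι, ∑ m, v m * eval 0 (g m p) = 0) → v = 0)
    (w : κ → MvPolynomial ι ℂ) (hw : ∀ p, ∑ m, w m * g m p = 0) : ∀ m, w m = 0 := by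
  classical
  have key : ∀ n : ℕ, ∀ s : ι →₀ ℕ, s.degree = n → ∀ m, coeff s (w m) = 0 := by
    intro n
    induction n using Nat.strong_induction_on with
    | _ n ih =>
      intro s hs
      have := H (fun m => coeff s (w m)) ?_
      · intro m
        exact congrFun this m
      · intro p
        have h1 := congrArg (coeff s) (hw p)
        rw [coeff_sum, coeff_zero] at h1
        rw [← h1]
        refine Finset.sum_congr rfl fun m _ => ?_
        rw [coeff_mul, Finset.sum_eq_single (s, 0)]
        · have e0 : eval 0 (g m p) = coeff 0 (g m p) := by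
            rw [← constantCoeff_eq, eval_zero]
          rw [e0]
        · rintro ⟨a, b⟩ hab hne
          have hab : a + b = s := by simpa using hab
          have hb : b ≠ 0 := by
            rintro rfl
            apply hne
            rw [add_zero] at hab
            rw [hab]
          have hdeg : a.degree + b.degree = n := by
            rw [← hs, ← hab, map_add]
          have hb' : b.degree ≠ 0 := by
            intro h
            exact hb ((Finsupp.degree_eq_zero_iff b).1 h)
          rw [ih a.degree (by omega) a rfl m, zero_mul]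
        · intro h
          exact absurd (by simp) h
  intro m
  ext s
  rw [coeff_zero]
  exact key _ s rfl m

/-- Jacobian criterion: if the Jacobian matrix of the polynomials `φ m` at `0` has independent rows
(characteristic 0), the `φ m` satisfy no polynomial relation. -/
theorem jacobian_dominant {ι κ : Type} [Fintype ι] [Fintype κ] (φ : κ → MvPolynomial ι ℂ)
    (H : ∀ v : κ → ℂ, (∀ p : ι, ∑ m, v m * eval 0 (pderiv p (φ m)) = 0) → v = 0)
    (F : MvPolynomial κ ℂ) (hF : aeval φ F = 0) : F = 0 := by
  classical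
  have key : ∀ n : ℕ, ∀ F : MvPolynomial κ ℂ, (∀ s : κ →₀ ℕ, n ≤ s.degree → coeff s F = 0) →
      aeval φ F = 0 → F = 0 := by
    intro n
    induction n with
    | zero =>
      intro F hs _
      ext s
      rw [hs s (Nat.zero_le _), coeff_zero]
    | succ n ih =>
      intro F hs hF
      have hw : ∀ m, aeval φ (pderiv m F) = 0 := by
        refine jd_zero (fun m p => pderiv p (φ m)) H _ ?_
        intro p
        rw [← jd_chain φ p F, hF, map_zero]
      have hd : ∀ m, pderiv m F = 0 := by
        intro m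
        refine ih _ ?_ (hw m)
        intro s hsn
        rw [coeff_pderiv, hs, zero_mul]
        rw [map_add, Finsupp.degree_single]
        omega
      have hC : F = C (coeff 0 F) := by
        ext s
        rw [coeff_C]
        split_ifs with h
        · rw [h]
        · have : ∃ i, s i ≠ 0 := by
            by_contra hcon
            push Not at hcon
            exact h (Finsupp.ext hcon).symm
          obtain ⟨i, hi⟩ := this
          have h2 : s - Finsupp.single i 1 + Finsupp.single i 1 = s := by
            ext j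
            by_cases hj : j = i
            · subst hj
              simp
              omega
            · simp [Finsupp.single_eq_of_ne hj]
          have h3 := coeff_pderiv (i := i) F (s - Finsupp.single i 1)
          rw [hd i, coeff_zero, h2] at h3
          rcases mul_eq_zero.1 h3.symm with h4 | h4
          · exact h4
          · exact absurd h4 (Nat.cast_add_one_ne_zero _)
      rw [hC] at hF
      rw [aeval_C, algebraMap_eq] at hF
      rw [hC, (C_eq_zero).1 hF, C_0]
  refine key (F.support.sup (fun s => s.degree) + 1) F ?_ hF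
  intro s hs
  by_contra h
  have : s.degree ≤ F.support.sup (fun s => s.degree) :=
    Finset.le_sup (f := fun s => s.degree) (mem_support_iff.2 h)
  omega

-- job 33028
/-- generic weights on a sparse incidence structure
(NOTE: `[Nonempty I]` added, the statement is false for `I` empty and `P` nonempty) -/
theorem generic_weights {P I Row S Q : Type} [Fintype P] [Fintype I] [Nonempty I]
    [DecidableEq Row] [Finite S]
    (row : I → P → Row) (sg : P → S) (var : I → P → Q)
    (h1 : ∀ i j x y, row i x = row j y → i = j ∧ sg x = sg y)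
    (h2 : ∀ i j x y, var i x = var j y → i = j ∧ (sg x = sg y → x = y))
    (h3 : ∀ (i : I) (x0 : P), (Finset.univ.filter fun x => row i x = row i x0).card ≤ Fintype.card I) :
    ∃ U : Q → ℂ, ∀ v : P → ℂ,
      (∀ (i : I) (x0 : P), ∑ x ∈ Finset.univ.filter (fun x => row i x = row i x0), U (var i x) * v x = 0) →
      v = 0 := by
  classical
  let t : P → Finset Row := fun x => Finset.univ.image (fun i => row i x)
  have ht : ∀ x, (t x).card = Fintype.card I := by
    intro x
    rw [Finset.card_image_of_injective _ (fun i j hij => (h1 i j x x hij).1), Finset.card_univ]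
  have hall : ∀ A : Finset P, A.card ≤ (A.biUnion t).card := by
    intro A
    have hI : 0 < Fintype.card I := Fintype.card_pos
    have key : A.card * Fintype.card I ≤ (A.biUnion t).card * Fintype.card I := by
      apply Finset.card_mul_le_card_mul (fun (x : P) (ρ : Row) => ρ ∈ t x)
      · intro x hx
        rw [← ht x]
        apply Finset.card_le_card
        intro ρ hρ
        rw [Finset.mem_bipartiteAbove]
        exact ⟨Finset.mem_biUnion.mpr ⟨x, hx, hρ⟩, hρ⟩
      · intro ρ hρ
        obtain ⟨x0, hx0, hρ0⟩ := Finset.mem_biUnion.mp hρ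
        obtain ⟨i, _, hi⟩ := Finset.mem_image.mp hρ0
        refine le_trans (Finset.card_le_card ?_) (h3 i x0)
        intro x hx
        rw [Finset.mem_bipartiteBelow] at hx
        obtain ⟨j, _, hj⟩ := Finset.mem_image.mp hx.2
        have h := (h1 j i x x0 (hj.trans hi.symm)).1
        subst h
        rw [Finset.mem_filter]
        exact ⟨Finset.mem_univ _, hj.trans hi.symm⟩
    exact Nat.le_of_mul_le_mul_right key hI
  obtain ⟨f, hfinj, hf⟩ := (Finset.all_card_le_biUnion_card_iff_exists_injective t).mp hall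
  have hf' : ∀ x, ∃ i, row i x = f x := by
    intro x
    obtain ⟨i, _, hi⟩ := Finset.mem_image.mp (hf x)
    exact ⟨i, hi⟩
  choose ix hix using hf'
  let M : (s : S) → Matrix {x : P // sg x = s} {x : P // sg x = s} (MvPolynomial Q ℂ) :=
    fun s => Matrix.of fun x1 x =>
      if row (ix x1.1) x.1 = row (ix x1.1) x1.1 then X (var (ix x1.1) x.1) else 0
  have hdet : ∀ s, (M s).det ≠ 0 := by
    intro s h0
    let U0 : Q → ℂ := fun z => if ∃ x1, sg x1 = s ∧ var (ix x1) x1 = z then 1 else 0
    have hone : (eval U0).mapMatrix (M s) = 1 := by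
      ext ⟨x1, hx1⟩ ⟨x, hx⟩
      rw [RingHom.mapMatrix_apply, Matrix.map_apply]
      simp only [M, Matrix.of_apply]
      by_cases hxx : x1 = x
      · subst hxx
        rw [if_pos rfl, eval_X, Matrix.one_apply_eq]
        simp only [U0]
        rw [if_pos ⟨x1, hx1, rfl⟩]
      · rw [Matrix.one_apply_ne (by
          intro h
          exact hxx (congrArg Subtype.val h))]
        by_cases hrow : row (ix x1) x = row (ix x1) x1
        · rw [if_pos hrow, eval_X]
          simp only [U0]
          rw [if_neg]
          rintro ⟨x2, hx2, hvar⟩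
          obtain ⟨e1, e2⟩ := h2 _ _ _ _ hvar
          have e3 : x2 = x := e2 (hx2.trans hx.symm)
          subst e3
          apply hxx
          apply hfinj
          rw [← hix x1, ← hix x2, e1, hrow]
        · rw [if_neg hrow, map_zero]
    have h4 : eval U0 (M s).det = 1 := by
      rw [RingHom.map_det, hone, Matrix.det_one]
    rw [h0, map_zero] at h4
    exact zero_ne_one h4
  have := Fintype.ofFinite S
  have hprod : ∏ s, (M s).det ≠ 0 := Finset.prod_ne_zero_iff.mpr (fun s _ => hdet s)
  obtain ⟨U, hU⟩ : ∃ U : Q → ℂ, eval U (∏ s, (M s).det) ≠ 0 := by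
    by_contra hcon
    push Not at hcon
    apply hprod
    apply MvPolynomial.funext
    intro x
    rw [hcon x, map_zero]
  refine ⟨U, fun v hv => ?_⟩
  funext x
  have hs : eval U (M (sg x)).det ≠ 0 := by
    intro h0
    apply hU
    rw [map_prod]
    exact Finset.prod_eq_zero (Finset.mem_univ (sg x)) h0
  rw [RingHom.map_det] at hs
  have hmv : Matrix.mulVec ((eval U).mapMatrix (M (sg x)))
      (fun y : {z : P // sg z = sg x} => v y.1) = 0 := by
    funext x1
    have h5 := hv (ix x1.1) x1.1
    rw [Finset.sum_filter] at h5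
    rw [Matrix.mulVec, dotProduct, Pi.zero_apply, ← h5]
    have h6 : ∀ y : {z : P // sg z = sg x},
        ((eval U).mapMatrix (M (sg x))) x1 y * v y.1
          = (fun z : P => if row (ix x1.1) z = row (ix x1.1) x1.1 then
              U (var (ix x1.1) z) * v z else 0) y.1 := by
      intro y
      rw [RingHom.mapMatrix_apply, Matrix.map_apply]
      simp only [M, Matrix.of_apply]
      split_ifs with hc
      · rw [eval_X]
      · rw [map_zero, zero_mul]
    rw [Finset.sum_congr rfl (fun y _ => h6 y)]
    rw [← Finset.sum_subtype (Finset.univ.filter (fun z : P => sg z = sg x)) (by simp)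
      (fun z : P => if row (ix x1.1) z = row (ix x1.1) x1.1 then
              U (var (ix x1.1) z) * v z else 0)]
    apply Finset.sum_subset (Finset.filter_subset _ _)
    intro z _ hz
    rw [if_neg]
    intro hrow
    apply hz
    rw [Finset.mem_filter]
    exact ⟨Finset.mem_univ _, ((h1 _ _ _ _ hrow).2).trans x1.2⟩
  have h7 := Matrix.eq_zero_of_mulVec_eq_zero hs hmv
  exact congrFun h7 ⟨x, rfl⟩

-- job 33030
theorem ec_q (m c : ℕ) (a : Fin (c + 1)) :
    a.val / (m + 3) < (c + 1 + (m + 3) - 1) / (m + 3) := by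
  have h1 : c + 1 + (m + 3) - 1 = c + (m + 3) := by omega
  rw [h1, Nat.add_div_right _ (by omega)]
  have h2 : a.val / (m + 3) ≤ c / (m + 3) := Nat.div_le_div_right (by omega)
  omega

/-- the key of the class of `x` in direction `i` -/
def ecKey (m c : ℕ) (i : Fin (m + 3)) (x : Fin (m + 3) → Fin (c + 1)) :
    (Fin m → Fin (c + 1)) × Fin (c + 1) × Fin ((c + 1 + (m + 3) - 1) / (m + 3)) :=
  (fun s => x (i + s.succ.succ.succ),
    x (i + (0 : Fin (m + 2)).succ) + x (i + (0 : Fin (m + 1)).succ.succ),
    ⟨(x (i + (0 : Fin (m + 2)).succ)).val / (m + 3), ec_q m c _⟩)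

theorem ec_ne (m : ℕ) (i : Fin (m + 3)) (t : Fin (m + 2)) : i + t.succ ≠ i := by
  intro h
  have h1 : t.succ = 0 := by
    have h2 : i + t.succ = i + 0 := by rw [h, add_zero]
    exact add_left_cancel h2
  exact Fin.succ_ne_zero t h1

theorem ec_key_update (m c : ℕ) (i : Fin (m + 3)) (x : Fin (m + 3) → Fin (c + 1))
    (a : Fin (c + 1)) : ecKey m c i (Function.update x i a) = ecKey m c i x := by
  unfold ecKey
  have h1 : ∀ t : Fin (m + 2), Function.update x i a (i + t.succ) = x (i + t.succ) :=
    fun t => Function.update_of_ne (ec_ne m i t) _ _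
  simp only [h1]

theorem ec_sum (m c : ℕ) (i : Fin (m + 3)) (x : Fin (m + 3) → Fin (c + 1)) :
    ∑ j, x j = x i + (x (i + (0 : Fin (m + 2)).succ) + x (i + (0 : Fin (m + 1)).succ.succ)) +
      ∑ s : Fin m, x (i + s.succ.succ.succ) := by
  rw [← Equiv.sum_comp (Equiv.addLeft i) x]
  simp only [Equiv.coe_addLeft]
  rw [Fin.sum_univ_succ, Fin.sum_univ_succ, Fin.sum_univ_succ, add_zero]
  abel

theorem ec_forall (m : ℕ) (p : Fin (m + 3) → Prop) (i : Fin (m + 3)) (h0 : p i)
    (h1 : p (i + (0 : Fin (m + 2)).succ)) (h2 : p (i + (0 : Fin (m + 1)).succ.succ))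
    (h3 : ∀ s : Fin m, p (i + s.succ.succ.succ)) : ∀ j, p j := by
  intro j
  have h4 : ∀ t : Fin (m + 3), p (i + t) := by
    intro t
    refine Fin.cases ?_ (fun t => ?_) t
    · rwa [add_zero]
    · refine Fin.cases h1 (fun t => ?_) t
      refine Fin.cases h2 (fun t => ?_) t
      exact h3 t
  have h5 := h4 (j - i)
  rwa [add_sub_cancel] at h5

/-- generic weights on a sparse incidence structure (assumed here as a hypothesis `abs`) -/
theorem exists_classes (abs : ∀ {P I Row S Q : Type} [Fintype P] [Fintype I] [Nonempty I] [DecidableEq Row] [Finite S]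
    (row : I → P → Row) (sg : P → S) (var : I → P → Q)
    (_ : ∀ i j x y, row i x = row j y → i = j ∧ sg x = sg y)
    (_ : ∀ i j x y, var i x = var j y → i = j ∧ (sg x = sg y → x = y))
    (_ : ∀ (i : I) (x0 : P), (Finset.univ.filter fun x => row i x = row i x0).card ≤ Fintype.card I),
    ∃ U : Q → ℂ, ∀ v : P → ℂ,
      (∀ (i : I) (x0 : P), ∑ x ∈ Finset.univ.filter (fun x => row i x = row i x0), U (var i x) * v x = 0) →
      v = 0)
    (k c ρ : ℕ) (hk : 3 ≤ k) (hc : 0 < c) (hρ : c ^ (k - 2) * ((c + k - 1) / k) ≤ ρ) :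
    ∃ (cls : Fin k → (Fin k → Fin c) → Fin ρ) (u : Fin k → (Fin k → Fin c) → ℂ),
      (∀ i x a, cls i (Function.update x i a) = cls i x) ∧
      (∀ i x a, u i (Function.update x i a) = u i x) ∧
      ∀ v : (Fin k → Fin c) → ℂ,
        (∀ (i : Fin k) (a : Fin c) (t : Fin ρ),
          ∑ x ∈ Finset.univ.filter (fun x : Fin k → Fin c => x i = a ∧ cls i x = t), u i x * v x = 0) →
        v = 0 := by
  obtain ⟨m, rfl⟩ : ∃ m, k = m + 3 := ⟨k - 3, by omega⟩
  obtain ⟨d, rfl⟩ : ∃ d, c = d + 1 := ⟨c - 1, by omega⟩
  have hcard : Fintype.card ((Fin m → Fin (d + 1)) × Fin (d + 1) ×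
      Fin ((d + 1 + (m + 3) - 1) / (m + 3))) ≤ Fintype.card (Fin ρ) := by
    rw [Fintype.card_prod, Fintype.card_prod, Fintype.card_fun, Fintype.card_fin, Fintype.card_fin,
      Fintype.card_fin, Fintype.card_fin, ← mul_assoc, ← pow_succ]
    exact hρ
  obtain ⟨enc⟩ := Function.Embedding.nonempty_of_card_le hcard
  obtain ⟨U, hU⟩ := abs (P := Fin (m + 3) → Fin (d + 1)) (I := Fin (m + 3))
    (Row := Fin (m + 3) × Fin (d + 1) × Fin ρ) (S := Fin (d + 1))
    (Q := Fin (m + 3) × (Fin (m + 3) → Fin (d + 1)))
    (fun i x => (i, x i, enc (ecKey m d i x))) (fun x => ∑ j, x j)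
    (fun i x => (i, Function.update x i 0))
    (by
      intro i j x y h
      simp only [Prod.mk.injEq] at h
      obtain ⟨hij, h1, h2⟩ := h
      subst hij
      refine ⟨rfl, ?_⟩
      have h3 := enc.injective h2
      unfold ecKey at h3
      simp only [Prod.mk.injEq] at h3
      obtain ⟨h4, h5, -⟩ := h3
      show ∑ j, x j = ∑ j, y j
      rw [ec_sum m d i x, ec_sum m d i y, h1, h5]
      congr 1
      exact Finset.sum_congr rfl fun s _ => congrFun h4 s)
    (by
      intro i j x y h
      simp only [Prod.mk.injEq] at h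
      obtain ⟨hij, h1⟩ := h
      subst hij
      refine ⟨rfl, fun h2 => ?_⟩
      have h3 : ∀ l, l ≠ i → x l = y l := by
        intro l hl
        have h4 := congrFun h1 l
        rwa [Function.update_of_ne hl, Function.update_of_ne hl] at h4
      have h5 : x i = y i := by
        have h6 : ∑ j, x j = ∑ j, y j := h2
        rw [ec_sum m d i x, ec_sum m d i y, h3 _ (ec_ne m i _), h3 _ (ec_ne m i _),
          Finset.sum_congr rfl fun s _ => h3 _ (ec_ne m i _)] at h6
        exact add_right_cancel (add_right_cancel h6)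
      funext l
      by_cases hl : l = i
      · rw [hl, h5]
      · exact h3 l hl)
    (by
      intro i x0
      have h0 : (Finset.univ : Finset (Fin (m + 3))).card = Fintype.card (Fin (m + 3)) := rfl
      rw [← h0]
      refine Finset.card_le_card_of_injOn
        (fun x => (⟨(x (i + (0 : Fin (m + 2)).succ)).val % (m + 3), Nat.mod_lt _ (by omega)⟩ :
          Fin (m + 3))) (fun _ _ => Finset.mem_coe.2 (Finset.mem_univ _)) ?_
      intro x hx y hy hxy
      simp only [Finset.coe_filter, Finset.mem_univ, true_and, Set.mem_setOf_eq,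
        Prod.mk.injEq] at hx hy
      simp only [Fin.mk.injEq] at hxy
      obtain ⟨hx1, hx2⟩ := hx
      obtain ⟨hy1, hy2⟩ := hy
      have h3 := enc.injective (hx2.trans hy2.symm)
      unfold ecKey at h3
      simp only [Prod.mk.injEq, Fin.mk.injEq] at h3
      obtain ⟨h4, h5, h6⟩ := h3
      have h7 : x (i + (0 : Fin (m + 2)).succ) = y (i + (0 : Fin (m + 2)).succ) := by
        apply Fin.ext
        rw [← Nat.div_add_mod (x (i + (0 : Fin (m + 2)).succ)).val (m + 3),
          ← Nat.div_add_mod (y (i + (0 : Fin (m + 2)).succ)).val (m + 3), h6, hxy]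
      have h8 : x (i + (0 : Fin (m + 1)).succ.succ) = y (i + (0 : Fin (m + 1)).succ.succ) := by
        rw [h7] at h5
        exact add_left_cancel h5
      funext l
      exact ec_forall m (fun l => x l = y l) i (hx1.trans hy1.symm) h7 h8 (congrFun h4) l)
  refine ⟨fun i x => enc (ecKey m d i x), fun i x => U (i, Function.update x i 0), ?_, ?_, ?_⟩
  · intro i x a
    show enc (ecKey m d i (Function.update x i a)) = enc (ecKey m d i x)
    rw [ec_key_update]
  · intro i x a
    show U (i, Function.update (Function.update x i a) i 0) = U (i, Function.update x i 0)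
    rw [Function.update_idem]
  · intro v hv
    apply hU v
    intro i x0
    rw [← hv i (x0 i) (enc (ecKey m d i x0))]
    refine Finset.sum_congr ?_ fun _ _ => rfl
    ext x
    simp

-- job 33031
/-- first order term at the origin, coefficientwise -/
noncomputable def dl {ι : Type} (p : ι) (b : MvPolynomial ι ℂ) : ℂ := eval 0 (pderiv p b)

theorem coeff_dl_lin_dl_add {ι : Type} (p : ι) (a b : MvPolynomial ι ℂ) :
    dl p (a + b) = dl p a + dl p b := by simp [dl]

theorem coeff_dl_lin_dl_zero {ι : Type} (p : ι) : dl p (0 : MvPolynomial ι ℂ) = 0 := by simp [dl]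

theorem coeff_dl_lin_dl_one {ι : Type} (p : ι) : dl p (1 : MvPolynomial ι ℂ) = 0 := by simp [dl]

theorem coeff_dl_lin_dl_mul {ι : Type} (p : ι) (a b : MvPolynomial ι ℂ) :
    dl p (a * b) = dl p a * eval 0 b + eval 0 a * dl p b := by
  unfold dl
  rw [Derivation.leibniz, map_add, smul_eq_mul, smul_eq_mul, map_mul, map_mul]
  ring

theorem coeff_dl_lin_dl_sum {ι τ : Type} (p : ι) (s : Finset τ) (f : τ → MvPolynomial ι ℂ) :
    dl p (∑ i ∈ s, f i) = ∑ i ∈ s, dl p (f i) := by
  unfold dl
  rw [map_sum, map_sum]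

/-- first order part -/
noncomputable def coeff_dl_lin_D {ι : Type} {n : ℕ} (p : ι)
    (q : MvPolynomial (Fin n) (MvPolynomial ι ℂ)) : MvPolynomial (Fin n) ℂ :=
  ∑ m ∈ q.support, monomial m (dl p (coeff m q))

theorem coeff_dl_lin_cD {ι : Type} {n : ℕ} (p : ι)
    (q : MvPolynomial (Fin n) (MvPolynomial ι ℂ)) (m : Fin n →₀ ℕ) :
    coeff m (coeff_dl_lin_D p q) = dl p (coeff m q) := by
  classical
  unfold coeff_dl_lin_D
  rw [coeff_sum]
  simp only [coeff_monomial]
  by_cases hm : m ∈ q.support
  · rw [Finset.sum_eq_single m]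
    · rw [if_pos rfl]
    · intro b _ hb; rw [if_neg hb]
    · intro h; exact absurd hm h
  · rw [Finset.sum_eq_zero]
    · rw [notMem_support_iff.1 hm, coeff_dl_lin_dl_zero]
    · intro b hb
      rw [if_neg]
      rintro rfl
      exact hm hb

theorem coeff_dl_lin_Dadd {ι : Type} {n : ℕ} (p : ι)
    (q r : MvPolynomial (Fin n) (MvPolynomial ι ℂ)) :
    coeff_dl_lin_D p (q + r) = coeff_dl_lin_D p q + coeff_dl_lin_D p r := by
  ext m
  rw [coeff_dl_lin_cD, coeff_add, coeff_add, coeff_dl_lin_cD, coeff_dl_lin_cD,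
    coeff_dl_lin_dl_add]

theorem coeff_dl_lin_Dmul {ι : Type} {n : ℕ} (p : ι)
    (q r : MvPolynomial (Fin n) (MvPolynomial ι ℂ)) :
    coeff_dl_lin_D p (q * r) = coeff_dl_lin_D p q * map (eval (0 : ι → ℂ)) r
      + map (eval (0 : ι → ℂ)) q * coeff_dl_lin_D p r := by
  classical
  ext m
  rw [coeff_dl_lin_cD, coeff_mul, coeff_add, coeff_mul, coeff_mul, coeff_dl_lin_dl_sum,
    ← Finset.sum_add_distrib]
  apply Finset.sum_congr rfl
  intro x _
  rw [coeff_dl_lin_dl_mul, coeff_dl_lin_cD, coeff_dl_lin_cD, coeff_map, coeff_map]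

theorem coeff_dl_lin_DC {ι : Type} {n : ℕ} (p : ι) (a : MvPolynomial ι ℂ) :
    coeff_dl_lin_D (n := n) p (C a) = C (dl p a) := by
  classical
  ext m
  rw [coeff_dl_lin_cD, coeff_C, coeff_C]
  split_ifs
  · rfl
  · exact coeff_dl_lin_dl_zero p

theorem coeff_dl_lin_DX {ι : Type} {n : ℕ} (p : ι) (i : Fin n) :
    coeff_dl_lin_D p (X i) = 0 := by
  classical
  ext m
  rw [coeff_dl_lin_cD, coeff_X', coeff_zero]
  split_ifs
  · exact coeff_dl_lin_dl_one p
  · exact coeff_dl_lin_dl_zero p

theorem coeff_dl_lin_Dzero {ι : Type} {n : ℕ} (p : ι) :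
    coeff_dl_lin_D (n := n) p 0 = 0 := by
  ext m
  rw [coeff_dl_lin_cD, coeff_zero, coeff_zero, coeff_dl_lin_dl_zero]

theorem coeff_dl_lin_Dsum {ι τ : Type} {n : ℕ} (p : ι) (s : Finset τ)
    (f : τ → MvPolynomial (Fin n) (MvPolynomial ι ℂ)) :
    coeff_dl_lin_D p (∑ i ∈ s, f i) = ∑ i ∈ s, coeff_dl_lin_D p (f i) := by
  ext m
  rw [coeff_dl_lin_cD, coeff_sum, coeff_sum, coeff_dl_lin_dl_sum]
  exact Finset.sum_congr rfl fun i _ => by rw [coeff_dl_lin_cD]

theorem coeff_dl_lin_one {A : Type} [CommRing A] {n : ℕ} (g : MvPolynomial (Fin n) A) :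
    lin (1 : Matrix (Fin n) (Fin n) A) g = g := by
  have h : lin (1 : Matrix (Fin n) (Fin n) A) = AlgHom.id A _ := by
    apply MvPolynomial.algHom_ext
    intro i
    rw [lin_X, Finset.sum_eq_single i]
    · simp
    · intro j _ hj
      rw [Matrix.one_apply_ne hj.symm]; simp
    · simp
  rw [h]; rfl

theorem coeff_dl_lin_main {ι : Type} {n : ℕ} (p : ι)
    (N : Matrix (Fin n) (Fin n) (MvPolynomial ι ℂ)) (hN : ∀ x y, eval 0 (N x y) = if x = y then 1 else 0)
    (g : MvPolynomial (Fin n) (MvPolynomial ι ℂ)) :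
    coeff_dl_lin_D p (lin N g) = coeff_dl_lin_D p g +
      ∑ x, ∑ y, C (dl p (N x y)) * X y * pderiv x (map (eval (0 : ι → ℂ)) g) := by
  have hN1 : N.map (eval (0 : ι → ℂ)) = 1 := by
    ext x y
    rw [Matrix.map_apply, hN, Matrix.one_apply]
  have hmap : ∀ g : MvPolynomial (Fin n) (MvPolynomial ι ℂ),
      map (eval (0 : ι → ℂ)) (lin N g) = map (eval (0 : ι → ℂ)) g := by
    intro g
    rw [lin_map, hN1, coeff_dl_lin_one]
  induction g using MvPolynomial.induction_on with
  | C a =>
    have h1 : lin N (C a) = C a := by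
      simp [lin]
    rw [h1]
    simp
  | add q r hq hr =>
    rw [map_add, coeff_dl_lin_Dadd, coeff_dl_lin_Dadd, hq, hr, map_add]
    simp only [map_add, mul_add, Finset.sum_add_distrib]
    ring
  | mul_X q i hq =>
    have hD : coeff_dl_lin_D p (lin N (X i)) = ∑ y, C (dl p (N i y)) * X y := by
      rw [lin_X, coeff_dl_lin_Dsum]
      apply Finset.sum_congr rfl
      intro j _
      rw [coeff_dl_lin_Dmul, coeff_dl_lin_DC, coeff_dl_lin_DX, mul_zero, add_zero, map_X]
    rw [map_mul, coeff_dl_lin_Dmul, hq, hmap, hmap, hD, coeff_dl_lin_Dmul, coeff_dl_lin_DX,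
      mul_zero, add_zero, map_X, map_mul, map_X]
    have hd : ∀ x, pderiv x (map (eval (0 : ι → ℂ)) q * X i)
        = pderiv x (map (eval (0 : ι → ℂ)) q) * X i
          + (if x = i then map (eval (0 : ι → ℂ)) q else 0) := by
      intro x
      rw [Derivation.leibniz, smul_eq_mul, smul_eq_mul, pderiv_X]
      by_cases hx : x = i
      · subst hx
        rw [Pi.single_eq_same, if_pos rfl]; ring
      · rw [Pi.single_eq_of_ne (fun h => hx h.symm), if_neg hx]; ring
    have hs : ∑ x, ∑ y, C (dl p (N x y)) * X y *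
          pderiv x (map (eval (0 : ι → ℂ)) q * X i)
        = (∑ x, ∑ y, C (dl p (N x y)) * X y * pderiv x (map (eval (0 : ι → ℂ)) q)) * X i
          + map (eval (0 : ι → ℂ)) q * ∑ y, C (dl p (N i y)) * X y := by
      simp only [hd, mul_add, Finset.sum_add_distrib]
      congr 1
      · rw [Finset.sum_mul]
        apply Finset.sum_congr rfl
        intro x _
        rw [Finset.sum_mul]
        apply Finset.sum_congr rfl
        intro y _
        ring
      · rw [Finset.sum_eq_single i]
        · rw [Finset.mul_sum]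
          apply Finset.sum_congr rfl
          intro y _
          rw [if_pos rfl]; ring
        · intro x _ hx
          apply Finset.sum_eq_zero
          intro y _
          rw [if_neg hx, mul_zero]
        · intro h; exact absurd (Finset.mem_univ i) h
    rw [hs]; ring

theorem coeff_dl_lin {ι : Type} {n : ℕ} (p : ι)
    (N : Matrix (Fin n) (Fin n) (MvPolynomial ι ℂ)) (hN : ∀ x y, eval 0 (N x y) = if x = y then 1 else 0)
    (g : MvPolynomial (Fin n) (MvPolynomial ι ℂ)) (m : Fin n →₀ ℕ) :
    dl p (coeff m (lin N g)) = dl p (coeff m g) +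
      coeff m (∑ x, ∑ y, C (dl p (N x y)) * X y * pderiv x (map (eval (0 : ι → ℂ)) g)) := by
  rw [← coeff_dl_lin_cD, coeff_dl_lin_main p N hN g, coeff_add, coeff_dl_lin_cD]

end Pool.Agent.Helper909.SubRank
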