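import Pool.Agent.Helper909.SubRank.DomTools
set_option autoImplicit false
namespace Pool.Agent.Helper909.SubRank
open MvPolynomial

/-- the variable number `t` after the blocks -/
def Rv {n k c ρ : ℕ} (hn : k * c + ρ ≤ n) (t : Fin ρ) : Fin n := ⟨k * c + t.val, by have := t.isLt; omega⟩

/-- the variable number `a` of the block `i` -/
def Ev {n k c : ℕ} (hn : k * c ≤ n) (i : Fin k) (a : Fin c) : Fin n := ⟨i.val * c + a.val, by
  have h1 : i.val + 1 ≤ k := i.isLt
  have h2 := a.isLt
  have h3 : (i.val + 1) * c ≤ k * c := Nat.mul_le_mul_right _ h1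
  have h4 : (i.val + 1) * c = i.val * c + c := by ring
  omega⟩

/-- base form missing the block `i` -/
noncomputable def baseForm {n k c ρ : ℕ} (hn : k * c + ρ ≤ n) (hc : 0 < c)
    (cls : Fin k → (Fin k → Fin c) → Fin ρ) (u : Fin k → (Fin k → Fin c) → ℂ) (i : Fin k) :
    MvPolynomial (Fin n) ℂ :=
  ∑ q ∈ Finset.univ.filter (fun q : Fin k → Fin c => q i = ⟨0, hc⟩),
    monomial (Finsupp.single (Rv hn (cls i q)) 1 +
      ∑ j ∈ Finset.univ.erase i, Finsupp.single (Ev (le_trans (Nat.le_add_right _ _) hn) j (q j)) 1) (u i q)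

theorem baseForm_homogeneous {n k c ρ : ℕ} (hn : k * c + ρ ≤ n) (hc : 0 < c)
    (cls : Fin k → (Fin k → Fin c) → Fin ρ) (u : Fin k → (Fin k → Fin c) → ℂ) (i : Fin k) :
    (baseForm hn hc cls u i).IsHomogeneous k := by
  unfold baseForm
  apply IsHomogeneous.sum
  intro q _
  apply isHomogeneous_monomial
  have hk : 0 < k := lt_of_le_of_lt (Nat.zero_le _) i.isLt
  simp only [map_add, map_sum, Finsupp.degree_single, Finset.sum_const, Finset.card_erase_of_mem (Finset.mem_univ i),
    Finset.card_univ, Fintype.card_fin, smul_eq_mul, mul_one]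
  omega

theorem baseForm_avoid {n k c ρ : ℕ} (hn : k * c + ρ ≤ n) (hc : 0 < c)
    (cls : Fin k → (Fin k → Fin c) → Fin ρ) (u : Fin k → (Fin k → Fin c) → ℂ) (i : Fin k)
    (m : Fin n →₀ ℕ) (hm : coeff m (baseForm hn hc cls u i) ≠ 0) (x : Fin n) (hx : x.val / c = i.val) :
    m x = 0 := by
  classical
  unfold baseForm at hm
  rw [coeff_sum] at hm
  obtain ⟨q, _, hq⟩ := Finset.exists_ne_zero_of_sum_ne_zero hm
  rw [coeff_monomial] at hq
  have he := (ite_ne_right_iff.1 hq).1
  rw [← he, Finsupp.add_apply, Finsupp.finset_sum_apply]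
  have h1 : Rv hn (cls i q) ≠ x := by
    rintro rfl
    simp only [Rv] at hx
    have h2 : k ≤ (k * c + (cls i q).val) / c := by
      rw [Nat.le_div_iff_mul_le hc]; omega
    have := i.isLt
    omega
  rw [Finsupp.single_eq_of_ne (fun h => h1 h.symm), zero_add]
  refine Finset.sum_eq_zero fun j hj => ?_
  apply Finsupp.single_eq_of_ne
  rintro rfl
  have h3 : (Ev (le_trans (Nat.le_add_right _ _) hn) j (q j)).val / c = j.val := by
    simp only [Ev]
    rw [mul_comm, Nat.mul_add_div (by omega), Nat.div_eq_of_lt (q j).isLt, add_zero]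
  rw [h3] at hx
  exact (Finset.ne_of_mem_erase hj) (Fin.ext hx)

theorem tangent_form_mu {n k c : ℕ} (hn : k * c ≤ n) (q : Fin k → Fin c) (i : Fin k)
    (a : Fin c) : mu hn (Function.update q i a) = Finsupp.single (Ev hn i a) 1 +
      ∑ j ∈ Finset.univ.erase i, Finsupp.single (Ev hn j (q j)) 1 := by
  have h : mu hn (Function.update q i a) =
      ∑ j : Fin k, Finsupp.single (Ev hn j (Function.update q i a j)) 1 := rfl
  rw [h, ← Finset.add_sum_erase _ _ (Finset.mem_univ i), Function.update_self]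
  congr 1
  refine Finset.sum_congr rfl (fun j hj => ?_)
  rw [Function.update_of_ne (Finset.ne_of_mem_erase hj)]

theorem tangent_form_ne {n k c ρ : ℕ} (hn : k * c + ρ ≤ n) (t : Fin ρ) (j : Fin k) (b : Fin c) :
    Ev (le_trans (Nat.le_add_right _ _) hn) j b ≠ Rv hn t := by
  intro h
  have h0 := congrArg Fin.val h
  simp only [Ev, Rv] at h0
  have h1 : j.val + 1 ≤ k := j.isLt
  have h2 := b.isLt
  have h3 : (j.val + 1) * c ≤ k * c := Nat.mul_le_mul_right _ h1
  have h4 : (j.val + 1) * c = j.val * c + c := by ring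
  omega

theorem tangent_form_inj {n k c ρ : ℕ} (hn : k * c + ρ ≤ n) (t t' : Fin ρ)
    (h : Rv hn t = Rv hn t') : t = t' := by
  have h0 := congrArg Fin.val h
  simp only [Rv] at h0
  exact Fin.ext (by omega)

theorem tangent_form_pd {n k c ρ : ℕ} (hn : k * c + ρ ≤ n)
    (t t' : Fin ρ) (q : Fin k → Fin c) (i : Fin k) (a : Fin c) (r : ℂ) :
    X (Ev (le_trans (Nat.le_add_right _ _) hn) i a) * pderiv (Rv hn t)
      (monomial (Finsupp.single (Rv hn t') 1 + ∑ j ∈ Finset.univ.erase i,
        Finsupp.single (Ev (le_trans (Nat.le_add_right _ _) hn) j (q j)) 1) r) =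
      if t' = t then monomial (mu (le_trans (Nat.le_add_right _ _) hn) (Function.update q i a)) r
        else 0 := by
  have hz : (∑ j ∈ Finset.univ.erase i,
      Finsupp.single (Ev (le_trans (Nat.le_add_right _ _) hn) j (q j)) 1 : Fin n →₀ ℕ)
        (Rv hn t) = 0 := by
    rw [Finsupp.finset_sum_apply]
    refine Finset.sum_eq_zero (fun j _ => ?_)
    exact Finsupp.single_eq_of_ne (fun h => tangent_form_ne hn t j (q j) h.symm)
  rw [pderiv_monomial, Finsupp.add_apply, hz, add_zero]
  split_ifs with h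
  · subst h
    rw [Finsupp.single_eq_same, Nat.cast_one, mul_one, add_tsub_cancel_left, X, monomial_mul,
      one_mul, tangent_form_mu]
  · rw [Finsupp.single_eq_of_ne (fun h' => h (tangent_form_inj hn _ _ h'.symm)), Nat.cast_zero,
      mul_zero, map_zero, mul_zero]

theorem tangent_form {n k c ρ : ℕ} (hn : k * c + ρ ≤ n) (hc : 0 < c)
    (cls : Fin k → (Fin k → Fin c) → Fin ρ) (u : Fin k → (Fin k → Fin c) → ℂ)
    (h1 : ∀ i x a, cls i (Function.update x i a) = cls i x)
    (h2 : ∀ i x a, u i (Function.update x i a) = u i x) (i : Fin k) (t : Fin ρ) (a : Fin c) :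
    X (Ev (le_trans (Nat.le_add_right _ _) hn) i a) * pderiv (Rv hn t) (baseForm hn hc cls u i) =
      ∑ x ∈ Finset.univ.filter (fun x : Fin k → Fin c => x i = a ∧ cls i x = t),
        monomial (mu (le_trans (Nat.le_add_right _ _) hn) x) (u i x) := by
  unfold baseForm
  rw [map_sum, Finset.mul_sum]
  have hstep : ∀ q : Fin k → Fin c, X (Ev (le_trans (Nat.le_add_right _ _) hn) i a) *
      pderiv (Rv hn t) (monomial (Finsupp.single (Rv hn (cls i q)) 1 +
        ∑ j ∈ Finset.univ.erase i,
          Finsupp.single (Ev (le_trans (Nat.le_add_right _ _) hn) j (q j)) 1) (u i q)) =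
      if cls i q = t then
        monomial (mu (le_trans (Nat.le_add_right _ _) hn) (Function.update q i a)) (u i q)
      else 0 := fun q => tangent_form_pd hn t (cls i q) q i a (u i q)
  rw [Finset.sum_congr rfl (fun q _ => hstep q), ← Finset.sum_filter, Finset.filter_filter]
  refine Finset.sum_nbij' (fun q => Function.update q i a)
    (fun x => Function.update x i ⟨0, hc⟩) ?_ ?_ ?_ ?_ ?_
  · intro q hq
    obtain ⟨-, -, h3⟩ := Finset.mem_filter.1 hq
    refine Finset.mem_filter.2 ⟨Finset.mem_univ _, Function.update_self _ _ _, ?_⟩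
    rw [h1]
    exact h3
  · intro x hx
    obtain ⟨-, -, h3⟩ := Finset.mem_filter.1 hx
    refine Finset.mem_filter.2 ⟨Finset.mem_univ _, Function.update_self _ _ _, ?_⟩
    rw [h1]
    exact h3
  · intro q hq
    obtain ⟨-, h3, -⟩ := Finset.mem_filter.1 hq
    simp only [Function.update_idem]
    rw [← h3, Function.update_eq_self]
  · intro x hx
    obtain ⟨-, h3, -⟩ := Finset.mem_filter.1 hx
    simp only [Function.update_idem]
    rw [← h3, Function.update_eq_self]
  · intro q _
    rw [h2]





theorem lin_mem_sub_of_avoid (n k c i : ℕ) (hc : 0 < c) (hi : (i + 1) * c ≤ n)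
    (g : MvPolynomial (Fin n) ℂ) (hg : g.IsHomogeneous k)
    (h : ∀ m, coeff m g ≠ 0 → ∀ x : Fin n, x.val / c = i → m x = 0)
    (M : Matrix (Fin n) (Fin n) ℂ) : lin M g ∈ Sub n k (n - c) := by
  classical
  have hic : i * c + c ≤ n := by
    have : (i + 1) * c = i * c + c := by ring
    omega
  let e : Fin (n - c) → Fin n := fun j => ⟨if j.val < i * c then j.val else j.val + c, by
    have := j.isLt
    split_ifs <;> omega⟩
  have he : Function.Injective e := by
    intro a b hab
    have h1 : (if a.val < i * c then a.val else a.val + c) =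
        (if b.val < i * c then b.val else b.val + c) := congrArg Fin.val hab
    apply Fin.ext
    split_ifs at h1 <;> omega
  have hv : (g.vars : Set (Fin n)) ⊆ Set.range e := by
    intro x hx
    have hx' : x ∈ g.vars := hx
    rw [mem_vars] at hx'
    obtain ⟨m, hm, hmx⟩ := hx'
    have h1 : ¬ x.val / c = i := fun h2 => (Finsupp.mem_support_iff.1 hmx) (h m (mem_support_iff.1 hm) x h2)
    have h0 := x.isLt
    by_cases hlt : x.val < i * c
    · refine ⟨⟨x.val, by omega⟩, ?_⟩
      apply Fin.ext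
      change (if x.val < i * c then x.val else x.val + c) = x.val
      rw [if_pos hlt]
    · have h3 : (i + 1) * c ≤ x.val := by
        rw [← Nat.le_div_iff_mul_le hc]
        have h4 : i ≤ x.val / c := (Nat.le_div_iff_mul_le hc).2 (by omega)
        omega
      have h5 : (i + 1) * c = i * c + c := by ring
      refine ⟨⟨x.val - c, by omega⟩, ?_⟩
      apply Fin.ext
      change (if x.val - c < i * c then x.val - c else x.val - c + c) = x.val
      rw [if_neg (by omega)]
      omega
  obtain ⟨h', hh'⟩ := exists_rename_eq_of_vars_subset_range g e he hv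
  have hhom : h'.IsHomogeneous k := by
    rw [← IsHomogeneous.rename_isHomogeneous_iff he, hh']
    exact hg
  let E : Matrix (Fin (n - c)) (Fin n) ℂ := fun j x => if x = e j then 1 else 0
  have hE : (rename e : MvPolynomial (Fin (n - c)) ℂ →ₐ[ℂ] MvPolynomial (Fin n) ℂ) = lin E := by
    apply MvPolynomial.algHom_ext
    intro j
    rw [rename_X, lin_X, Finset.sum_eq_single (e j)]
    · simp [E]
    · intro b _ hb
      simp [E, hb]
    · simp
  refine ⟨h', E * M, hhom, ?_⟩
  rw [← lin_lin, ← hE, hh']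

theorem hits_mu {n c s : ℕ} (hc : 0 < c) (hn : s * c ≤ n) (m : Fin n →₀ ℕ)
    (hm : m.degree = s) (hh : Hits s c m) : ∃ φ : Fin s → Fin c, m = mu hn φ := by
  classical
  choose x hx1 hx2 using hh
  let y : Fin s → Fin n := fun j => x j.val j.isLt
  have hy1 : ∀ j : Fin s, (y j).val / c = j.val := fun j => hx1 j.val j.isLt
  have hy2 : ∀ j : Fin s, m (y j) ≠ 0 := fun j => hx2 j.val j.isLt
  refine ⟨fun j => ⟨(y j).val % c, Nat.mod_lt _ hc⟩, ?_⟩
  have hmu : mu hn (fun j => (⟨(y j).val % c, Nat.mod_lt _ hc⟩ : Fin c)) =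
      ∑ j : Fin s, Finsupp.single (y j) 1 := by
    unfold mu
    refine Finset.sum_congr rfl fun j _ => ?_
    congr 1
    apply Fin.ext
    change j.val * c + (y j).val % c = (y j).val
    have h1 := Nat.div_add_mod (y j).val c
    rw [hy1 j] at h1
    rw [mul_comm]
    exact h1
  rw [hmu]
  have hle : (∑ j : Fin s, Finsupp.single (y j) 1 : Fin n →₀ ℕ) ≤ m := by
    intro z
    rw [Finsupp.finset_sum_apply]
    by_cases hz : ∃ j, y j = z
    · obtain ⟨j0, hj0⟩ := hz
      rw [Finset.sum_eq_single j0]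
      · rw [hj0, Finsupp.single_eq_same]
        have := hy2 j0
        rw [hj0] at this
        omega
      · intro b _ hb
        rw [Finsupp.single_apply, if_neg]
        intro h1
        apply hb
        apply Fin.ext
        rw [← hy1 b, ← hy1 j0, h1, hj0]
      · simp
    · push Not at hz
      rw [Finset.sum_eq_zero]
      · exact Nat.zero_le _
      · intro j _
        rw [Finsupp.single_apply, if_neg (hz j)]
  have hdeg : (∑ j : Fin s, Finsupp.single (y j) 1 : Fin n →₀ ℕ).degree = s := by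
    rw [map_sum]
    simp
  have h1 : (m - ∑ j : Fin s, Finsupp.single (y j) 1) + ∑ j : Fin s, Finsupp.single (y j) 1 = m :=
    tsub_add_cancel_of_le hle
  have h2 : (m - ∑ j : Fin s, Finsupp.single (y j) 1).degree = 0 := by
    have h3 := congrArg Finsupp.degree h1
    rw [map_add, hdeg, hm] at h3
    omega
  rw [Finsupp.degree_eq_zero_iff] at h2
  rw [h2, zero_add] at h1
  exact h1.symm





theorem ineq3 (n c s : ℕ) (hc : 2 ≤ c) (hs : 2 ≤ s) (hn : (s + 2) * c ≤ n) :
    s * c * (n - c) < c ^ s * (n - s * c) + s * (c ^ (s - 1) * (c * (c + 1) / 2)) := by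
  obtain ⟨a, rfl⟩ := Nat.exists_eq_add_of_le' hs
  obtain ⟨r, rfl⟩ := Nat.exists_eq_add_of_le hn
  have hT : 2 * (c * (c + 1) / 2) = c * (c + 1) :=
    Nat.mul_div_cancel' (Nat.even_mul_succ_self c).two_dvd
  have h2 : ∀ m : ℕ, 2 * (m + 1) ≤ 2 ^ (m + 1) := by
    intro m
    induction m with
    | zero => norm_num
    | succ m ih => rw [pow_succ]; omega
  have hu : 2 * a + 2 ≤ c ^ (a + 1) :=
    (h2 a).trans (Nat.pow_le_pow_left hc (a + 1))
  obtain ⟨w, hw⟩ := Nat.exists_eq_add_of_le hu
  have e1 : a + 2 - 1 = a + 1 := rfl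
  have e2 : c ^ (a + 2) = c * c ^ (a + 1) := by rw [pow_succ (n := a + 1)]; ring
  have e3 : (a + 2 + 2) * c + r - c = (a + 3) * c + r := by
    have : (a + 2 + 2) * c + r = ((a + 3) * c + r) + c := by ring
    rw [this, Nat.add_sub_cancel]
  have e4 : (a + 2 + 2) * c + r - (a + 2) * c = 2 * c + r := by
    have : (a + 2 + 2) * c + r = (2 * c + r) + (a + 2) * c := by ring
    rw [this, Nat.add_sub_cancel]
  rw [e1, e2, e3, e4, hw]
  generalize c * (c + 1) / 2 = T at hT
  have key : 2 * (c * (2 * a + 2 + w) * (2 * c + r) + (a + 2) * ((2 * a + 2 + w) * T)) =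
      2 * ((a + 2) * c * ((a + 3) * c + r)) +
        c * (c * (4 * a + 4 * w + w * (a + 2)) + r * (2 * a + 2 * w) +
          (2 * a * a + 6 * a + 4 + w * (a + 2))) := by
    calc 2 * (c * (2 * a + 2 + w) * (2 * c + r) + (a + 2) * ((2 * a + 2 + w) * T))
        = 2 * (c * (2 * a + 2 + w) * (2 * c + r)) + (a + 2) * ((2 * a + 2 + w) * (2 * T)) := by ring
      _ = _ := by rw [hT]; ring
  have hpos : 0 < c * (c * (4 * a + 4 * w + w * (a + 2)) + r * (2 * a + 2 * w) +
          (2 * a * a + 6 * a + 4 + w * (a + 2))) := by positivity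
  omega


end Pool.Agent.Helper909.SubRank
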