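import Pool.Agent.Helper909.SubRank.Defs
set_option autoImplicit false
namespace Pool.Agent.Helper909.SubRank
open MvPolynomial

theorem lin_X {A : Type*} [CommRing A] {ι κ : Type*} [Fintype κ]
    (g : Matrix ι κ A) (i : ι) : lin g (X i) = ∑ j, C (g i j) * X j := by
  simp [lin]

theorem lin_lin {A : Type*} [CommRing A] {ι κ τ : Type*} [Fintype κ] [Fintype τ]
    (g : Matrix ι κ A) (g' : Matrix κ τ A) (f : MvPolynomial ι A) :
    lin g' (lin g f) = lin (g * g') f := by
  have : (lin g').comp (lin g) = lin (g * g') := by
    apply MvPolynomial.algHom_ext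
    intro i
    simp only [AlgHom.comp_apply, lin_X, map_sum, map_mul]
    simp only [lin, algHom_C, MvPolynomial.algebraMap_eq, Matrix.mul_apply, map_sum, map_mul,
      Finset.sum_mul, Finset.mul_sum]
    rw [Finset.sum_comm]
    refine Finset.sum_congr rfl fun j _ => Finset.sum_congr rfl fun l _ => by ring
  rw [← this]; rfl

theorem lin_homogeneous {A : Type*} [CommRing A] {ι κ : Type*} [Fintype κ] {k : ℕ}
    (g : Matrix ι κ A) {f : MvPolynomial ι A}
    (hf : f.IsHomogeneous k) : (lin g f).IsHomogeneous k := by
  have h := IsHomogeneous.aeval hf (n := 1) (fun i => ∑ j, C (g i j) * X j) (by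
    intro i
    apply IsHomogeneous.sum
    intro j _
    have := (isHomogeneous_C κ (g i j)).mul (isHomogeneous_X A j)
    simpa using this)
  simpa [lin] using h

theorem lin_smul_one {A : Type*} [CommRing A] {n k : ℕ} (d : A) {f : MvPolynomial (Fin n) A}
    (hf : f.IsHomogeneous k) : lin (d • (1 : Matrix (Fin n) (Fin n) A)) f = C (d ^ k) * f := by
  have h1 : ∀ i : Fin n, lin (d • (1 : Matrix (Fin n) (Fin n) A)) (X i) = C d * X i := by
    intro i
    rw [lin_X, Finset.sum_eq_single i]
    · simp
    · intro j _ hj
      simp [Matrix.one_apply_ne hj.symm]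
    · simp
  have h2 : ∀ m : Fin n →₀ ℕ, ∀ a : A, lin (d • (1 : Matrix (Fin n) (Fin n) A)) (monomial m a)
      = C (d ^ m.degree) * monomial m a := by
    intro m a
    rw [monomial_eq, map_mul, Finsupp.prod, map_prod]
    simp only [map_pow, h1, mul_pow, Finset.prod_mul_distrib]
    have hd : ∑ i ∈ m.support, m i = m.degree := rfl
    rw [algHom_C, MvPolynomial.algebraMap_eq, Finset.prod_pow_eq_pow_sum, hd]
    ring
  conv_lhs => rw [f.as_sum]
  conv_rhs => rw [f.as_sum]
  rw [map_sum, Finset.mul_sum]
  refine Finset.sum_congr rfl fun m hm => ?_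
  rw [h2, show m.degree = k from ?_, map_pow]
  have := hf (mem_support_iff.1 hm)
  rw [← this, Finsupp.degree_eq_weight_one]
  rfl

theorem lin_map {A B : Type*} [CommRing A] [CommRing B] {ι κ : Type*} [Fintype κ] (φ : A →+* B)
    (g : Matrix ι κ A) (f : MvPolynomial ι A) :
    map φ (lin g f) = lin (g.map φ) (map φ f) := by
  induction f using MvPolynomial.induction_on with
  | C a => simp [lin]
  | add p q hp hq => simp [map_add, hp, hq]
  | mul_X p i hp =>
    simp only [map_mul, hp, map_X, lin_X, map_sum, map_C, Matrix.map_apply]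

/-- zero column: the variable does not occur -/
theorem lin_zero_col {A : Type*} [CommRing A] {ι κ : Type*} [Fintype κ]
    (g : Matrix ι κ A) (y : κ) (hy : ∀ i, g i y = 0) (f : MvPolynomial ι A) (m : κ →₀ ℕ)
    (hm : m y ≠ 0) : coeff m (lin g f) = 0 := by
  classical
  induction f using MvPolynomial.induction_on generalizing m with
  | C a =>
    simp only [lin, algHom_C, MvPolynomial.algebraMap_eq, coeff_C]
    rw [if_neg]
    rintro rfl
    simp at hm
  | add p q hp hq => simp [hp m hm, hq m hm]
  | mul_X p i hp =>
    rw [map_mul, lin_X, Finset.mul_sum, coeff_sum]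
    refine Finset.sum_eq_zero fun j _ => ?_
    by_cases hj : j = y
    · subst hj; simp [hy]
    · rw [show lin g p * (C (g i j) * X j) = C (g i j) * (lin g p * X j) by ring, coeff_C_mul,
        coeff_mul_X']
      split_ifs with h
      · rw [hp, mul_zero]
        rw [Finsupp.tsub_apply, Finsupp.single_apply, if_neg hj]
        simpa using hm
      · simp

end Pool.Agent.Helper909.SubRank
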