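import Pool.Agent.Helper909.SubRank.Tools
set_option autoImplicit false
namespace Pool.Agent.Helper909.SubRank
open MvPolynomial

-- job 32287
/-- the monomial with one variable in each of the blocks `0,…,s-1`. -/
noncomputable def mu {n c s : ℕ} (hn : s * c ≤ n) (φ : Fin s → Fin c) : Fin n →₀ ℕ :=
  ∑ j : Fin s, Finsupp.single (⟨j.val * c + (φ j).val, by
    have h1 : j.val + 1 ≤ s := j.isLt
    have h2 := (φ j).isLt
    have h3 : (j.val + 1) * c ≤ s * c := Nat.mul_le_mul_right _ h1
    have h4 : (j.val + 1) * c = j.val * c + c := by ring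
    omega⟩ : Fin n) 1

theorem mu_apply_of_le {n c s : ℕ} (hn : s * c ≤ n) (φ : Fin s → Fin c) (x : Fin n)
    (hx : s * c ≤ x.val) : mu hn φ x = 0 := by
  unfold mu
  rw [Finsupp.finsetSum_apply]
  refine Finset.sum_eq_zero fun j _ => ?_
  rw [Finsupp.single_apply, if_neg]
  intro h
  have h0 := congrArg Fin.val h
  simp only at h0
  have h1 : j.val + 1 ≤ s := j.isLt
  have h2 := (φ j).isLt
  have h3 : (j.val + 1) * c ≤ s * c := Nat.mul_le_mul_right _ h1
  have h4 : (j.val + 1) * c = j.val * c + c := by ring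
  omega

theorem ube_le {n s : ℕ} (X : Fin s → Fin n) (hX : Function.Injective X) (m : Fin n →₀ ℕ)
    (hm : ∀ j, m (X j) ≠ 0) : ∑ j, Finsupp.single (X j) 1 ≤ m := by
  intro y
  rw [Finsupp.finsetSum_apply]
  by_cases h : ∃ j, X j = y
  · obtain ⟨j, rfl⟩ := h
    rw [Finset.sum_eq_single j]
    · rw [Finsupp.single_eq_same]
      exact Nat.one_le_iff_ne_zero.2 (hm j)
    · intro i _ hij
      rw [Finsupp.single_apply, if_neg]
      exact fun h => hij (hX h)
    · intro h
      exact absurd (Finset.mem_univ _) h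
  · rw [Finset.sum_eq_zero]
    · exact Nat.zero_le _
    · intro j _
      rw [Finsupp.single_apply, if_neg]
      exact fun h' => h ⟨j, h'⟩

theorem ube_deg {n s : ℕ} (X : Fin s → Fin n) :
    (∑ j, Finsupp.single (X j) (1 : ℕ)).degree = s := by
  rw [map_sum]
  simp [Finsupp.degree_single]

theorem ube_one {n : ℕ} (d : Fin n →₀ ℕ) (h : d.degree = 1) : ∃ l, d = Finsupp.single l 1 := by
  have h0 : d ≠ 0 := by
    rintro rfl
    simp at h
  obtain ⟨l, hl⟩ := Finsupp.ne_iff.1 h0
  have hle : Finsupp.single l 1 ≤ d := by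
    rw [Finsupp.single_le_iff]
    exact Nat.one_le_iff_ne_zero.2 hl
  obtain ⟨e, he⟩ := exists_add_of_le hle
  refine ⟨l, ?_⟩
  have h1 := congrArg Finsupp.degree he
  rw [h, map_add, Finsupp.degree_single] at h1
  have h2 : e.degree = 0 := by omega
  rw [Finsupp.degree_eq_zero_iff] at h2
  rw [he, h2, add_zero]

theorem ube_choose {n c s : ℕ} (m : Fin n →₀ ℕ) (hh : Hits s c m) :
    ∃ X : Fin s → Fin n, Function.Injective X ∧ (∀ j, (X j).val / c = j.val) ∧
      ∀ j, m (X j) ≠ 0 := by
  have h : ∀ j : Fin s, ∃ x : Fin n, x.val / c = j.val ∧ m x ≠ 0 := fun j => hh j.val j.isLt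
  choose X hX hm using h
  refine ⟨X, fun i j hij => ?_, hX, hm⟩
  apply Fin.ext
  rw [← hX i, ← hX j, hij]

theorem hits_structure {n c s : ℕ} (hc : 0 < c) (hn : s * c ≤ n) (m : Fin n →₀ ℕ)
    (hm : m.degree = s + 1) (hh : Hits s c m) :
    (∀ x : Fin n, s * c ≤ x.val → m x = 0) ∨
      ∃ (l : Fin n) (φ : Fin s → Fin c), s * c ≤ l.val ∧ m = mu hn φ + Finsupp.single l 1 := by
  obtain ⟨X, hinj, hX, hmX⟩ := ube_choose m hh
  let φ : Fin s → Fin c := fun j => ⟨(X j).val % c, Nat.mod_lt _ hc⟩
  have hmu : mu hn φ = ∑ j, Finsupp.single (X j) 1 := by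
    unfold mu
    refine Finset.sum_congr rfl fun j _ => ?_
    congr 1
    apply Fin.ext
    show j.val * c + (X j).val % c = (X j).val
    rw [← hX j, mul_comm]
    exact Nat.div_add_mod _ _
  have hle : mu hn φ ≤ m := by
    rw [hmu]
    exact ube_le X hinj m hmX
  obtain ⟨e, he⟩ := exists_add_of_le hle
  have h1 := congrArg Finsupp.degree he
  rw [hm, map_add, hmu, ube_deg] at h1
  obtain ⟨l, hl⟩ := ube_one e (by omega)
  subst hl
  by_cases hlc : s * c ≤ l.val
  · exact Or.inr ⟨l, φ, hlc, he⟩
  · left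
    intro x hx
    have hlx : ¬ l = x := by
      rintro rfl
      exact hlc hx
    rw [he, Finsupp.add_apply, mu_apply_of_le hn φ x hx, Finsupp.single_apply, if_neg hlx,
      add_zero]

theorem hits_degree {n c s : ℕ} (m : Fin n →₀ ℕ) (hh : Hits s c m) : s ≤ m.degree := by
  obtain ⟨X, hinj, hX, hmX⟩ := ube_choose m hh
  have h1 := Finsupp.degree_mono (ube_le X hinj m hmX)
  rwa [ube_deg] at h1

-- job 32288
theorem Z_coeff_32288 {n N : ℕ} (f : MvPolynomial (Fin n) ℂ) (m : Fin n →₀ ℕ)
    (hm : ∀ x : Fin n, N ≤ x.val → m x = 0) :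
    coeff m (aeval (fun x : Fin n => if x.val < N then (X x : MvPolynomial (Fin n) ℂ) else 0) f) =
      coeff m f := by
  classical
  induction f using MvPolynomial.induction_on generalizing m with
  | C a => simp [algHom_C]
  | add p q hp hq => rw [map_add, coeff_add, coeff_add, hp m hm, hq m hm]
  | mul_X p i hp =>
    rw [map_mul, aeval_X]
    by_cases hi : i.val < N
    · rw [if_pos hi, coeff_mul_X', coeff_mul_X']
      split_ifs with h
      · apply hp
        intro x hx
        rw [Finsupp.tsub_apply, hm x hx, Nat.zero_sub]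
      · rfl
    · rw [if_neg hi, mul_zero, coeff_zero, coeff_mul_X', if_neg]
      rw [Finsupp.mem_support_iff, not_not]
      exact hm i (not_lt.mp hi)

/-- restriction to the variables `< N`. -/
theorem coeff_lin_block {n N : ℕ} (p : Matrix (Fin n) (Fin n) ℂ)
    (h1 : ∀ x y : Fin n, x.val < N → p x y = if x = y then 1 else 0)
    (h2 : ∀ x y : Fin n, N ≤ x.val → y.val < N → p x y = 0)
    (f : MvPolynomial (Fin n) ℂ) (m : Fin n →₀ ℕ) (hm : ∀ x : Fin n, N ≤ x.val → m x = 0) :
    coeff m (lin p f) = coeff m f := by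
  classical
  have h3 : (aeval (fun x : Fin n => if x.val < N then (X x : MvPolynomial (Fin n) ℂ) else 0)).comp (lin p) =
      aeval (fun x : Fin n => if x.val < N then (X x : MvPolynomial (Fin n) ℂ) else 0) := by
    apply MvPolynomial.algHom_ext
    intro x
    rw [AlgHom.comp_apply, lin_X, map_sum, aeval_X]
    by_cases hx : x.val < N
    · rw [Finset.sum_eq_single x]
      · rw [h1 x x hx, if_pos rfl, map_mul, aeval_X, if_pos hx]
        simp [algHom_C]
      · intro y _ hy
        rw [h1 x y hx, if_neg (Ne.symm hy), C_0, zero_mul, map_zero]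
      · intro h; exact absurd (Finset.mem_univ _) h
    · rw [if_neg hx]
      apply Finset.sum_eq_zero
      intro y _
      rw [map_mul, aeval_X]
      by_cases hy : y.val < N
      · rw [h2 x y (not_lt.mp hx) hy, C_0, map_zero, zero_mul]
      · rw [if_neg hy, mul_zero]
  rw [← Z_coeff_32288 (N := N) (lin p f) m hm, ← AlgHom.comp_apply, h3, Z_coeff_32288 f m hm]

-- job 32289
theorem pderiv_lin {n : ℕ} (g : Matrix (Fin n) (Fin n) ℂ) (y : Fin n) (f : MvPolynomial (Fin n) ℂ) :
    pderiv y (lin g f) = ∑ x, C (g x y) * lin g (pderiv x f) := by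
  have hL : ∀ i, pderiv y (∑ j, C (g i j) * X j : MvPolynomial (Fin n) ℂ) = C (g i y) := by
    intro i
    rw [map_sum, Finset.sum_eq_single y]
    · rw [pderiv_mul, pderiv_C, zero_mul, zero_add, pderiv_X_self, mul_one]
    · intro j _ hj
      rw [pderiv_mul, pderiv_C, zero_mul, zero_add, pderiv_X_of_ne hj, mul_zero]
    · intro h
      exact absurd (Finset.mem_univ _) h
  induction f using MvPolynomial.induction_on with
  | C a =>
    have h1 : lin g (C a) = C a := by simp [lin]
    rw [h1, pderiv_C]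
    symm
    refine Finset.sum_eq_zero (fun x _ => ?_)
    rw [pderiv_C, map_zero, mul_zero]
  | add p q hp hq =>
    rw [map_add, map_add, hp, hq, ← Finset.sum_add_distrib]
    refine Finset.sum_congr rfl (fun x _ => ?_)
    rw [map_add, map_add, mul_add]
  | mul_X p i hp =>
    rw [map_mul, pderiv_mul, hp, lin_X, hL]
    have h2 : ∀ x, C (g x y) * lin g (pderiv x (p * X i)) =
        C (g x y) * lin g (pderiv x p) * (∑ j, C (g i j) * X j) +
        (if x = i then lin g p * C (g i y) else 0) := by
      intro x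
      rw [pderiv_mul, map_add, map_mul, map_mul, lin_X]
      by_cases hx : x = i
      · subst hx
        rw [pderiv_X_self, if_pos rfl, map_one]
        ring
      · rw [pderiv_X_of_ne (Ne.symm hx), if_neg hx, map_zero]
        ring
    rw [Finset.sum_congr rfl (fun x _ => h2 x), Finset.sum_add_distrib, ← Finset.sum_mul,
      Finset.sum_ite_eq' Finset.univ i, if_pos (Finset.mem_univ _)]

theorem coeff_add_single {n : ℕ} (f : MvPolynomial (Fin n) ℂ) (m : Fin n →₀ ℕ) (l : Fin n)
    (hm : m l = 0) : coeff (m + Finsupp.single l 1) f = coeff m (pderiv l f) := by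
  classical
  have hmon : ∀ (s : Fin n →₀ ℕ) (a : ℂ), coeff (m + Finsupp.single l 1) (monomial s a) =
      coeff m (pderiv l (monomial s a)) := by
    intro s a
    rw [pderiv_monomial, coeff_monomial, coeff_monomial]
    by_cases h1 : s = m + Finsupp.single l 1
    · subst h1
      rw [if_pos rfl, if_pos (by simp)]
      simp [hm]
    · rw [if_neg h1]
      by_cases h2 : s - Finsupp.single l 1 = m
      · rw [if_pos h2]
        have h3 : s l = 0 := by
          by_contra h4
          apply h1
          rw [← h2]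
          rw [tsub_add_cancel_of_le]
          rw [Finsupp.single_le_iff]
          omega
        rw [h3]
        simp
      · rw [if_neg h2]
  rw [f.as_sum, map_sum, coeff_sum, coeff_sum]
  exact Finset.sum_congr rfl (fun s _ => hmon s _)

-- job 32290
theorem gen_inverse {α β : Type} [Fintype α] [Fintype β] (L : Matrix α β ℂ) :
    ∃ S : Matrix β α ℂ, L * S * L = L := by
  classical
  obtain ⟨g, hg⟩ := LinearMap.exists_rightInverse_of_surjective
    (Matrix.toLin' L).rangeRestrict (LinearMap.range_rangeRestrict _)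
  obtain ⟨G, hG⟩ := LinearMap.exists_extend g
  refine ⟨LinearMap.toMatrix' G, ?_⟩
  apply Matrix.toLin'.injective
  rw [Matrix.toLin'_mul, Matrix.toLin'_mul, Matrix.toLin'_toMatrix']
  apply LinearMap.ext
  intro v
  have h1 : G (Matrix.toLin' L v) = g ((Matrix.toLin' L).rangeRestrict v) := by
    have := LinearMap.congr_fun hG ((Matrix.toLin' L).rangeRestrict v)
    rw [← this]
    rfl
  have h2 := LinearMap.congr_fun hg ((Matrix.toLin' L).rangeRestrict v)
  have h3 := congrArg Subtype.val h2
  show Matrix.toLin' L (G (Matrix.toLin' L v)) = Matrix.toLin' L v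
  rw [h1]
  exact h3

end Pool.Agent.Helper909.SubRank
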