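import Pool.Agent.Helper909.SubRank.Tools2
set_option autoImplicit false
namespace Pool.Agent.Helper909.SubRank
open MvPolynomial

theorem ub_proj (n c s : ℕ) (hc : 0 < c) (hn : c ^ s + (s + 1) * c ≤ n)
    (f : MvPolynomial (Fin n) ℂ) (hf : f.IsHomogeneous (s + 1)) :
    ∃ h : MvPolynomial (Fin n) ℂ, h ∈ Sub n (s + 1) (n - c) ∧
      ∀ m, Hits s c m → coeff m (f - h) = 0 := by
  classical
  have hsc : s * c ≤ n := by
    have : (s + 1) * c = s * c + c := by ring
    omega
  let Λ : Matrix (Fin s → Fin c) (Fin n) ℂ := fun φ y =>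
    if y.val < s * c then 0 else coeff (mu hsc φ + Finsupp.single y 1) f
  obtain ⟨S, hS⟩ := gen_inverse Λ
  let p : Matrix (Fin n) (Fin n) ℂ := fun x y =>
    if x.val < s * c then (if x = y then 1 else 0) else (S * Λ) x y
  let U : Matrix (Fin n) (Fin (s * c) ⊕ (Fin s → Fin c)) ℂ := fun x a =>
    Sum.elim (fun b : Fin (s * c) => if x.val < s * c then (if x.val = b.val then 1 else 0) else 0)
      (fun φ => if x.val < s * c then 0 else S x φ) a
  let V : Matrix (Fin (s * c) ⊕ (Fin s → Fin c)) (Fin n) ℂ := fun a y =>
    Sum.elim (fun b : Fin (s * c) => if b.val = y.val then 1 else 0) (fun φ => Λ φ y) a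
  have hUV : U * V = p := by
    ext x y
    rw [Matrix.mul_apply, Fintype.sum_sum_type]
    simp only [U, V, p, Sum.elim_inl, Sum.elim_inr]
    by_cases hx : x.val < s * c
    · simp only [hx, if_true, zero_mul, Finset.sum_const_zero, add_zero]
      rw [Finset.sum_eq_single ⟨x.val, hx⟩]
      · by_cases hxy : x = y
        · subst hxy; simp
        · have : x.val ≠ y.val := fun h => hxy (Fin.ext h)
          simp [hxy, this]
      · intro b _ hb
        have : x.val ≠ b.val := fun h => hb (Fin.ext h.symm)
        simp [this]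
      · simp
    · simp only [hx, if_false, zero_mul, Finset.sum_const_zero, zero_add, Matrix.mul_apply]
  have hp1 : ∀ x y : Fin n, x.val < s * c → p x y = if x = y then 1 else 0 := by
    intro x y hx
    simp [p, hx]
  have hΛ0 : ∀ φ (y : Fin n), y.val < s * c → Λ φ y = 0 := by
    intro φ y hy
    simp [Λ, hy]
  have hp2 : ∀ x y : Fin n, s * c ≤ x.val → y.val < s * c → p x y = 0 := by
    intro x y hx hy
    simp only [p, not_lt.2 hx, if_false, Matrix.mul_apply]
    exact Finset.sum_eq_zero fun φ _ => by rw [hΛ0 φ y hy, mul_zero]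
  refine ⟨lin p f, ?_, ?_⟩
  · rw [← hUV, ← lin_lin]
    apply mem_sub_of_card
    · simp only [Fintype.card_sum, Fintype.card_fin, Fintype.card_pi, Finset.prod_const,
        Finset.card_univ]
      have : (s + 1) * c = s * c + c := by ring
      omega
    · exact lin_homogeneous _ hf
  · intro m hm
    rw [coeff_sub, sub_eq_zero]
    by_cases hd : m.degree = s + 1
    · rcases hits_structure hc hsc m hd hm with h | ⟨l, φ, hl, rfl⟩
      · exact (coeff_lin_block p hp1 hp2 f m h).symm
      · have hmul : mu hsc φ l = 0 := mu_apply_of_le hsc φ l hl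
        rw [coeff_add_single _ _ _ hmul, coeff_add_single _ _ _ hmul, pderiv_lin, coeff_sum]
        simp only [coeff_C_mul]
        have h1 : ∀ x, coeff (mu hsc φ) (lin p (pderiv x f)) = coeff (mu hsc φ) (pderiv x f) :=
          fun x => coeff_lin_block p hp1 hp2 _ _ fun z hz => mu_apply_of_le hsc φ z hz
        simp only [h1]
        have h2 : ∀ x : Fin n, p x l * coeff (mu hsc φ) (pderiv x f) = Λ φ x * (S * Λ) x l := by
          intro x
          by_cases hx : x.val < s * c
          · rw [hΛ0 φ x hx, zero_mul, hp1 x l hx, if_neg, zero_mul]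
            rintro rfl
            omega
          · rw [← coeff_add_single f _ x (mu_apply_of_le hsc φ x (not_lt.1 hx))]
            simp only [p, Λ, hx, if_false]
            ring
        simp only [h2]
        rw [← Matrix.mul_apply, ← Matrix.mul_assoc, hS]
        simp only [Λ, not_lt.2 hl, if_false]
        rw [← coeff_add_single f _ l hmul]
    · rw [hf.coeff_eq_zero hd, (lin_homogeneous p hf).coeff_eq_zero hd]

end Pool.Agent.Helper909.SubRank
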